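import Pool.Agent.HS38.HS.Far

/-!
# The head cannot come back from far away
-/

set_option autoImplicit false

open Finset Filter Topology

namespace Pool.Agent.HS38.HS

namespace One

variable {S Γ : Type} {M : One S Γ}

/-- the end of an excursion -/
lemma ret' (i : ℤ) {k a t : ℕ} (ha : M.Kth i k a) (hat : a < t) (ht : M.hd t ≤ i)
    (hu : M.ups i t ≤ k + 1) :
    ∃ r, a + 1 + r ≤ t ∧ M.hd (a + 1 + r) ≤ i ∧ (∀ s < r, i < M.hd (a + 1 + s)) ∧
      ∀ z, a + 1 + r ≤ z → z ≤ t → M.hd z ≤ i := by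
  classical
  have hex : ∃ r, M.hd (a + 1 + r) ≤ i := ⟨t - (a + 1), by
    rw [show a + 1 + (t - (a + 1)) = t by omega]; exact ht⟩
  have h1 := Nat.find_spec hex
  have h2 : ∀ s < Nat.find hex, i < M.hd (a + 1 + s) := fun s hs => not_le.1 (Nat.find_min hex hs)
  have h3 : a + 1 + Nat.find hex ≤ t := by
    have : Nat.find hex ≤ t - (a + 1) := Nat.find_min' hex (by
      rw [show a + 1 + (t - (a + 1)) = t by omega]; exact ht)
    omega
  refine ⟨Nat.find hex, h3, h1, h2, ?_⟩
  apply stay_left i h3 h1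
  have e1 := ups_mono (M := M) i h3
  have e2 := ups_succ i a ha.1
  have e3 := ups_mono (M := M) i (show a + 1 ≤ a + 1 + Nat.find hex by omega)
  have e4 := ha.2
  omega

open Classical in
/-- the time spent to the right of the boundary -/
noncomputable def tm (M : One S Γ) (i : ℤ) (t : ℕ) : ℕ := Nat.count (fun s => i < M.hd s) t

lemma tm_left (i : ℤ) {a e : ℕ} (hae : a ≤ e) (h : ∀ z, a ≤ z → z < e → M.hd z ≤ i) :
    M.tm i e = M.tm i a := by
  classical
  induction e, hae using Nat.le_induction with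
  | base => rfl
  | succ e hae ih =>
    have h1 := ih fun z h1 h2 => h z h1 (by omega)
    rw [← h1]
    unfold tm
    rw [Nat.count_succ, if_neg (not_lt.2 (h e hae (by omega))), add_zero]

lemma tm_right (i : ℤ) (a r : ℕ) (h : ∀ s < r, i < M.hd (a + s)) :
    M.tm i (a + r) = M.tm i a + r := by
  classical
  induction r with
  | zero => rfl
  | succ r ih =>
    have h1 := ih fun s hs => h s (by omega)
    rw [← add_assoc]
    unfold tm at h1 ⊢
    rw [Nat.count_succ, if_pos (h r (by omega)), h1]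
    ring

/-- excursions of agreeing runs have the same length -/
lemma same_r {i i' : ℤ} {a a' r r' : ℕ} (hag : M.Agree i i' a a')
    (h1 : M.hd (a + r) ≤ i) (h2 : ∀ s < r, i < M.hd (a + s))
    (h1' : M.hd (a' + r') ≤ i') (h2' : ∀ s < r', i' < M.hd (a' + s)) : r = r' := by
  rcases lt_trichotomy r r' with h | h | h
  · exfalso
    have h3 := (hag.run r h2).hd
    have h4 := h2' r h
    omega
  · exact h
  · exfalso
    have h3 := (hag.run r' fun s hs => h2 s (by omega)).hd
    have h4 := h2 r' h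
    omega

/-- the same time is spent to the right of boundaries with the same states -/
lemma tm_kth {i i' : ℤ} (hi : 0 ≤ i) (hi' : 0 ≤ i') (k : ℕ) :
    ∀ t t' : ℕ, M.Kth i k t → M.Kth i' k t' →
    (∀ l ≤ k, ∀ a a', M.Kth i l a → M.Kth i' l a' → M.st (a + 1) = M.st (a' + 1)) →
    M.tm i (t + 1) = M.tm i' (t' + 1) := by
  induction k with
  | zero =>
    intro t t' ht ht' _
    have key : ∀ (j : ℤ) (u : ℕ), 0 ≤ j → M.Kth j 0 u → M.tm j (u + 1) = 0 := by
      intro j u hj hu
      have h1 : ∀ z, 0 ≤ z → z ≤ u → M.hd z ≤ j :=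
        stay_left j (Nat.zero_le u) (by rw [hd_zero]; exact hj) (by rw [hu.2, ups_zero])
      rw [tm_left j (Nat.zero_le (u + 1)) fun z h2 h3 => h1 z h2 (by omega)]
      classical
      exact Nat.count_zero _
    rw [key i t hi ht, key i' t' hi' ht']
  | succ k ih =>
    intro t t' ht ht' hs
    obtain ⟨a, hat, ha⟩ := kth_exists (M := M) i (k := k) (T := t) (by rw [ht.2]; omega)
    obtain ⟨a', hat', ha'⟩ := kth_exists (M := M) i' (k := k) (T := t') (by rw [ht'.2]; omega)
    have hag := agree_kth hi hi' k a a' ha ha' fun l hl => hs l (by omega)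
    obtain ⟨r, hr1, hr2, hr3, hr4⟩ := ret' i ha hat ht.1.1 (by rw [ht.2])
    obtain ⟨r', hr1', hr2', hr3', hr4'⟩ := ret' i' ha' hat' ht'.1.1 (by rw [ht'.2])
    have hrr := same_r hag hr2 hr3 hr2' hr3'
    subst hrr
    rw [tm_left i (show a + 1 + r ≤ t + 1 by omega) (fun z h1 h2 => hr4 z h1 (by omega)),
      tm_left i' (show a' + 1 + r ≤ t' + 1 by omega) (fun z h1 h2 => hr4' z h1 (by omega)),
      tm_right i _ r hr3, tm_right i' _ r hr3', ih a a' ha ha' fun l hl => hs l (by omega)]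

/-- Two boundaries behind the head cannot have the same states. -/
lemma distinct {i i' : ℤ} (hi : 0 ≤ i) (hii : i < i') {T m : ℕ} (hT : M.hd T ≤ i)
    (hu : M.ups i T = M.ups i' T) (h1 : 1 ≤ M.ups i T) (hm : M.ups i T ≤ m)
    (hsg : ∀ l < m, M.sg T i l = M.sg T i' l) : False := by
  classical
  have hi' : 0 ≤ i' := by omega
  set k := M.ups i T - 1 with hk
  obtain ⟨a, haT, ha⟩ := kth_exists (M := M) i (k := k) (T := T) (by omega)
  obtain ⟨a', haT', ha'⟩ := kth_exists (M := M) i' (k := k) (T := T) (by omega)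
  have hs : ∀ l ≤ k, ∀ b b', M.Kth i l b → M.Kth i' l b' → M.st (b + 1) = M.st (b' + 1) := by
    intro l hl b b' hb hb'
    have h1 := kth_le hl hb ha
    have h2 := kth_le hl hb' ha'
    rw [← sg_eq (show b < T by omega) hb, ← sg_eq (show b' < T by omega) hb']
    exact hsg l (by omega)
  have hag := agree_kth hi hi' k a a' ha ha' hs
  obtain ⟨r, hr1, hr2, hr3, hr4⟩ := ret' i ha haT hT (by omega)
  obtain ⟨r', hr1', hr2', hr3', hr4'⟩ := ret' i' ha' haT' (by omega) (by omega)
  have hrr := same_r hag hr2 hr3 hr2' hr3'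
  subst hrr
  have e : M.tm i T = M.tm i' T := by
    rw [tm_left i hr1 (fun z h1 h2 => hr4 z h1 (by omega)),
      tm_left i' hr1' (fun z h1 h2 => hr4' z h1 (by omega)),
      tm_right i _ r hr3, tm_right i' _ r hr3', tm_kth hi hi' k a a' ha ha' hs]
  -- but more time is spent to the right of `i`
  obtain ⟨a0, ha0T, ha0⟩ := kth_exists (M := M) i (k := 0) (T := T) (by omega)
  have h2 := hd_of_up i a0 ha0.1
  have h3 : a0 + 1 < T := by
    rcases Nat.lt_or_ge (a0 + 1) T with h | h
    · exact h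
    · exfalso
      rw [show a0 + 1 = T by omega] at h2
      omega
  have h4 : M.tm i' T < M.tm i T := by
    unfold tm
    rw [Nat.count_eq_card_filter_range, Nat.count_eq_card_filter_range]
    apply card_lt_card
    rw [Finset.ssubset_iff_of_subset]
    · refine ⟨a0 + 1, ?_, ?_⟩
      · rw [mem_filter, mem_range]
        exact ⟨h3, by omega⟩
      · rw [mem_filter, mem_range]
        rintro ⟨-, h⟩
        omega
    · intro z hz
      rw [mem_filter] at hz ⊢
      exact ⟨hz.1, by omega⟩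
  omega

/-- boundaries which have been passed have been crossed -/
lemma ups_pos {i : ℤ} (hi : 0 ≤ i) {t T : ℕ} (htT : t ≤ T) (ht : i < M.hd t) : 1 ≤ M.ups i T := by
  obtain ⟨a, -, -, h1, -⟩ := last_kth hi ht
  have := ups_mono (M := M) i htT
  omega

/-- one scale -/
lemma back_aux {T m t p R : ℕ} (htT : t ≤ T) (hp : M.hd T ≤ p) (hR : (R : ℤ) ≤ M.hd t)
    (hpR : p ≤ R) : ((R : ℝ) - p) * 1 ≤ T / (m + 1) + m * ((M.vis T).card : ℝ) ^ m := by
  classical
  have h1 := card_filter_add_card_filter_not (s := Finset.Ico p R)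
    (fun i : ℕ => M.ups (i : ℤ) T ≤ m)
  rw [Nat.card_Ico] at h1
  have h2 : (m + 1) * ((Finset.Ico p R).filter (fun i : ℕ => ¬ M.ups (i : ℤ) T ≤ m)).card ≤ T := by
    refine le_trans ?_ (sum_ups (M := M) R T)
    calc (m + 1) * ((Finset.Ico p R).filter (fun i : ℕ => ¬ M.ups (i : ℤ) T ≤ m)).card
        = ∑ i ∈ (Finset.Ico p R).filter (fun i : ℕ => ¬ M.ups (i : ℤ) T ≤ m), (m + 1) := by
          rw [sum_const, smul_eq_mul, mul_comm]
      _ ≤ ∑ i ∈ (Finset.Ico p R).filter (fun i : ℕ => ¬ M.ups (i : ℤ) T ≤ m), M.ups (i : ℤ) T := by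
          apply sum_le_sum
          intro i hi
          have := (mem_filter.1 hi).2
          omega
      _ ≤ ∑ i ∈ range R, M.ups (i : ℤ) T := by
          apply sum_le_sum_of_subset
          intro i hi
          have := (Finset.mem_Ico.1 (mem_filter.1 hi).1).2
          exact mem_range.2 this
  have h3 : ((Finset.Ico p R).filter (fun i : ℕ => M.ups (i : ℤ) T ≤ m)).card ≤
      m * (M.vis T).card ^ m := by
    have hcard : ((range m) ×ˢ (Fintype.piFinset fun _ : Fin m => M.vis T)).card =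
        m * (M.vis T).card ^ m := by
      rw [card_product, card_range, Fintype.card_piFinset, prod_const, card_univ, Fintype.card_fin]
    rw [← hcard]
    have hpos : ∀ i ∈ (Finset.Ico p R).filter (fun i : ℕ => M.ups (i : ℤ) T ≤ m),
        1 ≤ M.ups (i : ℤ) T := by
      intro i hi
      have := (Finset.mem_Ico.1 (mem_filter.1 hi).1).2
      exact ups_pos (Int.natCast_nonneg i) htT (by omega)
    apply card_le_card_of_injOn (fun i : ℕ => (M.ups (i : ℤ) T - 1, fun l : Fin m => M.sg T (i : ℤ) l))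
    · intro i hi
      rw [Finset.mem_coe] at hi ⊢
      have h4 := hpos i hi
      have h5 := (mem_filter.1 hi).2
      rw [mem_product, Fintype.mem_piFinset]
      refine ⟨mem_range.2 ?_, fun l => sg_mem _ _ _⟩
      show M.ups (i : ℤ) T - 1 < m
      omega
    · have key : ∀ i ∈ (Finset.Ico p R).filter (fun i : ℕ => M.ups (i : ℤ) T ≤ m),
          ∀ i' ∈ (Finset.Ico p R).filter (fun i : ℕ => M.ups (i : ℤ) T ≤ m),
          (M.ups (i : ℤ) T - 1, fun l : Fin m => M.sg T (i : ℤ) l) =
          (M.ups (i' : ℤ) T - 1, fun l : Fin m => M.sg T (i' : ℤ) l) → ¬ i < i' := by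
        intro i hi i' hi' heq hlt
        rw [Prod.mk.injEq] at heq
        have h4 := hpos i hi
        have h5 := (mem_filter.1 hi).2
        have h6 := hpos i' hi'
        have h7 := (Finset.mem_Ico.1 (mem_filter.1 hi).1).1
        exact distinct (Int.natCast_nonneg i) (by exact_mod_cast hlt) (T := T) (m := m) (by omega)
          (by omega) h4 h5 fun l hl => congrFun heq.2 ⟨l, hl⟩
      intro i hi i' hi' heq
      rw [Finset.mem_coe] at hi hi'
      rcases lt_trichotomy i i' with h | h | h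
      · exact absurd h (key i hi i' hi' heq)
      · exact h
      · exact absurd h (key i' hi' i hi heq.symm)
  set A := ((Finset.Ico p R).filter (fun i : ℕ => M.ups (i : ℤ) T ≤ m)).card with hA
  set B := ((Finset.Ico p R).filter (fun i : ℕ => ¬ M.ups (i : ℤ) T ≤ m)).card with hB
  have h4 : (A : ℝ) + B = (R : ℝ) - p := by
    rw [← Nat.cast_sub hpR]
    exact_mod_cast h1
  have h5 : ((m : ℝ) + 1) * B ≤ T := by exact_mod_cast h2
  have h6 : (A : ℝ) ≤ m * ((M.vis T).card : ℝ) ^ m := by exact_mod_cast h3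
  have h7 : (B : ℝ) ≤ T / (m + 1) := by
    rw [le_div_iff₀ (by positivity)]
    linarith
  linarith

/-- the number of the signatures is small -/
lemma ev_vis (hvis : ∀ η : ℝ, 0 < η → ∀ᶠ T : ℕ in atTop, ((M.vis T).card : ℝ) ≤ (T : ℝ) ^ η)
    (m : ℕ) (hm : 0 < m) {ε : ℝ} (hε : 0 < ε) :
    ∀ᶠ T : ℕ in atTop, (m : ℝ) * ((M.vis T).card : ℝ) ^ m < ε * T := by
  have hmr : (0 : ℝ) < m := by exact_mod_cast hm
  have h1 := hvis (1 / (2 * m)) (by positivity)
  have h3 : Tendsto (fun T : ℕ => (T : ℝ) ^ (1 / 2 : ℝ)) atTop atTop :=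
    (tendsto_rpow_atTop (by norm_num)).comp tendsto_natCast_atTop_atTop
  filter_upwards [h1, h3.eventually_gt_atTop (m / ε), eventually_gt_atTop 0] with T hT1 hT hT0
  have hTr : (0 : ℝ) < T := by exact_mod_cast hT0
  have h4 : (T : ℝ) = (T : ℝ) ^ (1 / 2 : ℝ) * (T : ℝ) ^ (1 / 2 : ℝ) := by
    rw [← Real.rpow_add hTr]
    norm_num
  have h5 : 0 < (T : ℝ) ^ (1 / 2 : ℝ) := Real.rpow_pos_of_pos hTr _
  rw [div_lt_iff₀ hε] at hT
  have h6 := mul_lt_mul_of_pos_right hT h5
  have h7 : ε * (T : ℝ) = (T : ℝ) ^ (1 / 2 : ℝ) * ε * (T : ℝ) ^ (1 / 2 : ℝ) := by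
    conv_lhs => rw [h4]
    ring
  rw [h7]
  refine lt_of_le_of_lt (mul_le_mul_of_nonneg_left ?_ hmr.le) h6
  calc ((M.vis T).card : ℝ) ^ m ≤ ((T : ℝ) ^ (1 / (2 * m) : ℝ)) ^ m :=
        pow_le_pow_left₀ (Nat.cast_nonneg _) hT1 m
    _ = (T : ℝ) ^ (1 / 2 : ℝ) := by
        rw [← Real.rpow_natCast, ← Real.rpow_mul hTr.le]
        congr 1
        field_simp

/-- the head is close to its rightmost position -/
theorem back (hvis : ∀ η : ℝ, 0 < η → ∀ᶠ T : ℕ in atTop, ((M.vis T).card : ℝ) ≤ (T : ℝ) ^ η)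
    {ε : ℝ} (hε : 0 < ε) :
    ∀ᶠ T : ℕ in atTop, ∀ t ≤ T, (M.hd t : ℝ) ≤ max (M.hd T : ℝ) 0 + ε * T := by
  obtain ⟨m, hm⟩ := exists_nat_ge (2 / ε)
  have hmr : (0 : ℝ) < m := lt_of_lt_of_le (by positivity) hm
  have hm0 : 0 < m := by exact_mod_cast hmr
  filter_upwards [ev_vis hvis m hm0 (half_pos hε)] with T hT t ht
  have hTr : (0 : ℝ) ≤ T := Nat.cast_nonneg _
  have hεT : 0 ≤ ε * T := by positivity
  have hmax : ((max (M.hd T) 0).toNat : ℝ) = max (M.hd T : ℝ) 0 := by
    have h1 : (((max (M.hd T) 0).toNat : ℤ) : ℝ) = ((max (M.hd T) 0 : ℤ) : ℝ) := by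
      rw [Int.toNat_of_nonneg (le_max_right _ _)]
    push_cast at h1
    exact h1
  by_cases hc : (max (M.hd T) 0).toNat ≤ (M.hd t).toNat
  · by_cases h0 : 0 ≤ M.hd t
    · have h1 := back_aux (M := M) (m := m) ht (p := (max (M.hd T) 0).toNat) (R := (M.hd t).toNat)
        (by omega) (by omega) hc
      have h2 : ((M.hd t).toNat : ℝ) = (M.hd t : ℝ) := by
        have h3 : (((M.hd t).toNat : ℤ) : ℝ) = ((M.hd t : ℤ) : ℝ) := by
          rw [Int.toNat_of_nonneg h0]
        exact_mod_cast h3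
      rw [h2, hmax, mul_one] at h1
      have h3 : (T : ℝ) / (m + 1) ≤ ε / 2 * T := by
        rw [div_le_iff₀ (by positivity)]
        rw [div_le_iff₀ hε] at hm
        nlinarith
      linarith
    · have h1 : (M.hd t : ℝ) ≤ 0 := by exact_mod_cast (by omega : M.hd t ≤ 0)
      have h2 := le_max_right (M.hd T : ℝ) 0
      linarith
  · have h1 : M.hd t ≤ max (M.hd T) 0 := by omega
    have h2 : (M.hd t : ℝ) ≤ max (M.hd T : ℝ) 0 := by exact_mod_cast h1
    linarith

/-- **The head of a real time machine is not far to the right infinitely often**, if there are no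
long repetitions. -/
theorem main {d : ℕ → ℕ} (hd : ∀ t c, M.w t = some c → c = d (M.len t))
    (hvis : ∀ η : ℝ, 0 < η → ∀ᶠ T : ℕ in atTop, ((M.vis T).card : ℝ) ≤ (T : ℝ) ^ η)
    {c : ℕ} (hreal : ∀ n, n ≤ M.len (c * n)) {ε : ℝ} (hε : 0 < ε)
    (hfar : ∃ᶠ T : ℕ in atTop, ε * T ≤ (M.hd T : ℝ)) : Stam d := by
  classical
  have hc0 : 0 < c := by
    rcases Nat.eq_zero_or_pos c with h | h
    · exfalso
      have := hreal 1
      rw [h, zero_mul, len_zero] at this
      omega
    · exact h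
  have hcr : (0 : ℝ) < c := by exact_mod_cast hc0
  -- the digits between `T` and `2 c T`
  have hback := back (M := M) hvis (ε := ε / (4 * c)) (by positivity)
  rw [eventually_atTop] at hback
  obtain ⟨T0, hT0⟩ := hback
  have hlim : Tendsto (fun T : ℕ => 2 * c * T) atTop atTop :=
    tendsto_id.const_mul_atTop' (by omega)
  refine right hd hvis (ε := min (ε / (4 * c)) (1 / (2 * c))) (by positivity) ?_
  refine hlim.frequently ?_
  refine (hfar.and_eventually ((eventually_ge_atTop T0).and (eventually_gt_atTop 0))).mono ?_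
  rintro T ⟨hT, hT1, hT2⟩
  have hTr : (0 : ℝ) < T := by exact_mod_cast hT2
  have hfar' : ∀ z, T ≤ z → z ≤ 2 * c * T → ε / 2 * T ≤ (M.hd z : ℝ) := by
    intro z hz1 hz2
    have h1 := hT0 z (by omega) T hz1
    have h2 : ε / (4 * c) * z ≤ ε / 2 * T := by
      have h3 : (z : ℝ) ≤ 2 * c * T := by exact_mod_cast hz2
      calc ε / (4 * c) * z ≤ ε / (4 * c) * (2 * c * T) :=
            mul_le_mul_of_nonneg_left h3 (by positivity)
        _ = ε / 2 * T := by field_simp; ring
    have h3 : ε / 2 * T ≤ max (M.hd z : ℝ) 0 := by linarith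
    rcases le_max_iff.1 h3 with h4 | h4
    · exact h4
    · exfalso
      have : 0 < ε / 2 * T := by positivity
      linarith
  have hcount : T ≤ M.len (2 * c * T) - M.len T := by
    have h1 := hreal (2 * T)
    rw [show c * (2 * T) = 2 * c * T by ring] at h1
    have h2 := len_le (M := M) T
    omega
  have hle : T ≤ 2 * c * T := by nlinarith
  have hsub : M.len (2 * c * T) - M.len T ≤ ((range (2 * c * T)).filter (fun t =>
      (M.w t).isSome = true ∧
      min (ε / (4 * c)) (1 / (2 * c)) * ((2 * c * T : ℕ) : ℝ) ≤ (M.hd t : ℝ))).card := by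
    unfold len
    rw [Nat.count_eq_card_filter_range, Nat.count_eq_card_filter_range]
    rw [← card_sdiff_of_subset]
    · apply card_le_card
      intro z hz
      rw [Finset.mem_sdiff, mem_filter, mem_filter, mem_range, mem_range] at hz
      obtain ⟨⟨h1, h2⟩, h3⟩ := hz
      have h4 : T ≤ z := by
        by_contra hcon
        exact h3 ⟨by omega, h2⟩
      rw [mem_filter, mem_range]
      refine ⟨h1, h2, le_trans ?_ (hfar' z h4 h1.le)⟩
      push_cast
      calc min (ε / (4 * c)) (1 / (2 * c)) * (2 * c * T) ≤ ε / (4 * c) * (2 * c * T) :=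
            mul_le_mul_of_nonneg_right (min_le_left _ _) (by positivity)
        _ = ε / 2 * T := by field_simp; ring
    · intro z hz
      rw [mem_filter, mem_range] at hz ⊢
      exact ⟨by omega, hz.2⟩
  have h5 : (T : ℝ) ≤ (((range (2 * c * T)).filter (fun t =>
      (M.w t).isSome = true ∧
      min (ε / (4 * c)) (1 / (2 * c)) * ((2 * c * T : ℕ) : ℝ) ≤ (M.hd t : ℝ))).card : ℝ) := by
    exact_mod_cast hcount.trans hsub
  refine le_trans ?_ h5
  push_cast
  calc min (ε / (4 * c)) (1 / (2 * c)) * (2 * c * T) ≤ 1 / (2 * c) * (2 * c * T) :=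
        mul_le_mul_of_nonneg_right (min_le_right _ _) (by positivity)
    _ = T := by field_simp

end One

end Pool.Agent.HS38.HS
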