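import Pool.Agent.HS38.HS.Mult

/-!
# The number of the contents of short tapes
-/

set_option autoImplicit false

open Finset Filter Topology Asymptotics

namespace Pool.Agent.HS38.HS

variable {k : ℕ} {Q Γ : Type}

lemma head_succ (M : Machine k Q Γ) (t : ℕ) (i : Fin k) :
    |(M.conf (t + 1)).head i| ≤ |(M.conf t).head i| + 1 := by
  rw [conf_succ]
  show |(M.conf t).head i + ((M.move (M.conf t).state (M.conf t).scan i : SignType) : ℤ)| ≤ _
  refine (abs_add_le _ _).trans (add_le_add le_rfl ?_)
  have : ∀ s : SignType, |(s : ℤ)| ≤ 1 := by decide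
  exact this _

lemma head_le (M : Machine k Q Γ) (t : ℕ) (i : Fin k) : |(M.conf t).head i| ≤ t := by
  induction t with
  | zero => exact le_of_eq (abs_zero)
  | succ t ih =>
    have := head_succ M t i
    push_cast
    linarith

lemma tape_blank (M : Machine k Q Γ) (i : Fin k) (g : ℕ) (t : ℕ)
    (h : ∀ s < t, |(M.conf s).head i| ≤ g) (y : ℤ) (hy : (g : ℤ) < |y|) :
    (M.conf t).tape i y = M.blank := by
  induction t with
  | zero => rfl
  | succ t ih =>
    rw [conf_succ]
    show Function.update ((M.conf t).tape i) ((M.conf t).head i) _ y = _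
    rw [Function.update_of_ne, ih fun s hs => h s (by omega)]
    intro hc
    have := h t (by omega)
    rw [← hc] at this
    omega

lemma vis_card [Fintype Q] [Fintype Γ] (M : Machine k Q Γ) (j : Fin k) (g T : ℕ)
    (h : ∀ t ≤ T, ∀ i ≠ j, |(M.conf t).head i| ≤ g) :
    ((M.one j).vis T).card ≤
      Fintype.card Q * ((2 * g + 1) ^ k * ((Fintype.card Γ) ^ (2 * g + 1)) ^ k) := by
  classical
  let ψ : Q × (Fin k → Fin (2 * g + 1)) × (Fin k → Fin (2 * g + 1) → Γ) →
      Q × (Fin k → ℤ) × (Fin k → ℤ → Γ) := fun z =>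
    (z.1, fun i => ((z.2.1 i : ℕ) : ℤ) - g, fun i y =>
      if hy : (y + g).toNat < 2 * g + 1 ∧ 0 ≤ y + g then z.2.2 i ⟨(y + g).toNat, hy.1⟩ else M.blank)
  have hsub : (M.one j).vis T ⊆ (univ : Finset _).image ψ := by
    intro s hs
    obtain ⟨t, ht, rfl⟩ := One.mem_vis.1 hs
    rw [(one_conf M j t).1]
    have hp : ∀ i, |Function.update (M.conf t).head j 0 i| ≤ g := by
      intro i
      by_cases hi : i = j
      · subst hi
        rw [Function.update_self, abs_zero]
        exact Int.natCast_nonneg g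
      · rw [Function.update_of_ne hi]
        exact h t (by omega) i hi
    have hτ : ∀ i y, (g : ℤ) < |y| →
        Function.update (M.conf t).tape j (fun _ => M.blank) i y = M.blank := by
      intro i y hy
      by_cases hi : i = j
      · subst hi
        rw [Function.update_self]
      · rw [Function.update_of_ne hi]
        exact tape_blank M i g t (fun s hs => h s (by omega) i hi) y hy
    rw [mem_image]
    refine ⟨((M.conf t).state,
      fun i => ⟨(Function.update (M.conf t).head j 0 i + g).toNat, ?_⟩,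
      fun i y => Function.update (M.conf t).tape j (fun _ => M.blank) i ((y : ℕ) - (g : ℤ))),
      mem_univ _, ?_⟩
    · have := abs_le.1 (hp i)
      omega
    · show (_, _, _) = (_, _, _)
      rw [Prod.mk.injEq, Prod.mk.injEq]
      refine ⟨rfl, ?_, ?_⟩
      · funext i
        have := abs_le.1 (hp i)
        show (((Function.update (M.conf t).head j 0 i + g).toNat : ℕ) : ℤ) - g = _
        omega
      · funext i y
        show (if hy : (y + g).toNat < 2 * g + 1 ∧ 0 ≤ y + g then
          Function.update (M.conf t).tape j (fun _ => M.blank) i (((y + g).toNat : ℕ) - (g : ℤ))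
          else M.blank) = _
        split_ifs with hy
        · have hyy : (((y + g).toNat : ℕ) : ℤ) - (g : ℤ) = y := by
            have := hy.2
            omega
          rw [hyy]
        · refine (hτ i y ?_).symm
          rw [lt_abs]
          by_contra hc
          rw [not_or, not_lt, not_lt] at hc
          obtain ⟨hc1, hc2⟩ := hc
          exact hy ⟨by omega, by omega⟩
  refine (card_le_card hsub).trans (card_image_le.trans ?_)
  rw [card_univ, Fintype.card_prod, Fintype.card_prod, Fintype.card_fun, Fintype.card_fun,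
    Fintype.card_fun, Fintype.card_fin, Fintype.card_fin]

lemma heads_small (M : Machine k Q Γ) (j : Fin k)
    (h : ∀ i ≠ j, (fun t : ℕ => ((M.conf t).head i : ℝ)) =o[atTop] fun t : ℕ => Real.log t)
    {δ : ℝ} (hδ : 0 < δ) :
    ∀ᶠ T : ℕ in atTop, ∀ t ≤ T, ∀ i ≠ j, |((M.conf t).head i : ℝ)| ≤ δ * Real.log T := by
  have h1 : ∀ i : Fin k, ∀ᶠ T : ℕ in atTop, ∀ t ≤ T, i ≠ j →
      |((M.conf t).head i : ℝ)| ≤ δ * Real.log T := by
    intro i
    by_cases hi : i = j
    · exact Eventually.of_forall fun T t _ h2 => absurd hi h2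
    · have h2 := (h i hi).def hδ
      rw [eventually_atTop] at h2
      obtain ⟨t0, ht0⟩ := h2
      have h3 : Tendsto (fun T : ℕ => δ * Real.log T) atTop atTop :=
        (Real.tendsto_log_atTop.comp tendsto_natCast_atTop_atTop).const_mul_atTop hδ
      filter_upwards [h3.eventually_ge_atTop (t0 : ℝ)] with T hT t htT _
      by_cases h4 : t0 ≤ t
      · by_cases h5 : t = 0
        · subst h5
          have h6 : ((M.conf 0).head i : ℝ) = 0 := by
            show ((0 : ℤ) : ℝ) = 0
            simp
          rw [h6, abs_zero]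
          exact le_trans (Nat.cast_nonneg _) hT
        · have h6 := ht0 t h4
          rw [Real.norm_eq_abs, Real.norm_eq_abs, abs_of_nonneg (Real.log_natCast_nonneg t)] at h6
          refine h6.trans (mul_le_mul_of_nonneg_left ?_ hδ.le)
          apply Real.log_le_log
          · exact_mod_cast Nat.pos_of_ne_zero h5
          · exact_mod_cast htT
      · have h6 : |((M.conf t).head i : ℝ)| ≤ t := by
          have := head_le M t i
          rw [← Int.cast_abs]
          exact_mod_cast this
        have h7 : (t : ℝ) ≤ t0 := by exact_mod_cast (by omega : t ≤ t0)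
        linarith
  have h2 := eventually_all.2 h1
  filter_upwards [h2] with T hT t ht i hi
  exact hT i t ht hi

lemma vis_small [Finite Q] [Finite Γ] (M : Machine k Q Γ) (j : Fin k)
    (h : ∀ i ≠ j, (fun t : ℕ => ((M.conf t).head i : ℝ)) =o[atTop] fun t : ℕ => Real.log t)
    (η : ℝ) (hη : 0 < η) :
    ∀ᶠ T : ℕ in atTop, (((M.one j).vis T).card : ℝ) ≤ (T : ℝ) ^ η := by
  classical
  have := Fintype.ofFinite Q
  have := Fintype.ofFinite Γ
  have : Nonempty Q := ⟨M.start⟩
  have : Nonempty Γ := ⟨M.blank⟩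
  set D : ℕ := (2 * Fintype.card Γ) ^ k with hD
  have hD1 : 1 ≤ D := Nat.one_le_pow _ _ (by have := Fintype.card_pos (α := Γ); omega)
  have hDr : (1 : ℝ) ≤ D := by exact_mod_cast hD1
  have hlD : 0 ≤ Real.log D := Real.log_nonneg hDr
  set δ : ℝ := η / (4 * (Real.log D + 1)) with hδ
  have hδ0 : 0 < δ := by positivity
  have h1 := heads_small M j h hδ0
  have h2 : Tendsto (fun T : ℕ => (T : ℝ) ^ (η / 2)) atTop atTop :=
    (tendsto_rpow_atTop (by positivity)).comp tendsto_natCast_atTop_atTop
  filter_upwards [h1, h2.eventually_ge_atTop ((Fintype.card Q : ℝ) * D), eventually_gt_atTop 0]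
    with T hT1 hT2 hT0
  have hTr : (0 : ℝ) < T := by exact_mod_cast hT0
  have hlog : 0 ≤ Real.log T := Real.log_natCast_nonneg T
  set g : ℕ := ⌊δ * Real.log T⌋₊ with hg
  have hgle : (g : ℝ) ≤ δ * Real.log T := Nat.floor_le (by positivity)
  have h3 : ∀ t ≤ T, ∀ i ≠ j, |(M.conf t).head i| ≤ g := by
    intro t ht i hi
    have h4 := hT1 t ht i hi
    have h5 : ((|(M.conf t).head i|.toNat : ℕ) : ℝ) = |((M.conf t).head i : ℝ)| := by
      have h6 : (((|(M.conf t).head i|.toNat : ℕ) : ℤ) : ℝ) = ((|(M.conf t).head i| : ℤ) : ℝ) := by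
        rw [Int.toNat_of_nonneg (abs_nonneg _)]
      rw [← Int.cast_abs]
      exact_mod_cast h6
    have h6 : |(M.conf t).head i|.toNat ≤ g := by
      rw [hg]
      apply Nat.le_floor
      rw [h5]
      exact h4
    have := abs_nonneg ((M.conf t).head i)
    omega
  have h4 := vis_card M j g T h3
  have h5 : (2 * g + 1) ^ k * ((Fintype.card Γ) ^ (2 * g + 1)) ^ k ≤ D ^ (2 * g + 1) := by
    rw [← mul_pow, hD, ← pow_mul, mul_comm k (2 * g + 1), pow_mul]
    apply Nat.pow_le_pow_left
    rw [mul_pow]
    exact Nat.mul_le_mul_right _ (Nat.lt_two_pow_self).le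
  have h6 : (((M.one j).vis T).card : ℝ) ≤ Fintype.card Q * (D : ℝ) ^ (2 * g + 1) := by
    exact_mod_cast h4.trans (Nat.mul_le_mul_left _ h5)
  have h7 : (D : ℝ) ^ (2 * g) ≤ (T : ℝ) ^ (η / 2) := by
    rw [Real.rpow_def_of_pos hTr, ← Real.exp_log (by positivity : (0 : ℝ) < (D : ℝ) ^ (2 * g)),
      Real.log_pow]
    apply Real.exp_le_exp.2
    push_cast
    have h8 : δ * Real.log D ≤ η / 4 := by
      rw [hδ, div_mul_eq_mul_div, div_le_div_iff₀ (by positivity) (by norm_num)]
      nlinarith
    calc 2 * (g : ℝ) * Real.log D ≤ 2 * (δ * Real.log T) * Real.log D := by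
          apply mul_le_mul_of_nonneg_right _ hlD
          linarith
      _ = 2 * (δ * Real.log D) * Real.log T := by ring
      _ ≤ 2 * (η / 4) * Real.log T := by
          apply mul_le_mul_of_nonneg_right _ hlog
          linarith
      _ = Real.log T * (η / 2) := by ring
  calc (((M.one j).vis T).card : ℝ) ≤ Fintype.card Q * (D : ℝ) ^ (2 * g + 1) := h6
    _ = (Fintype.card Q * D) * (D : ℝ) ^ (2 * g) := by rw [pow_succ]; ring
    _ ≤ (T : ℝ) ^ (η / 2) * (T : ℝ) ^ (η / 2) := by
        apply mul_le_mul hT2 h7 (by positivity) (by positivity)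
    _ = (T : ℝ) ^ η := by
        rw [← Real.rpow_add hTr]
        congr 1
        ring

/-- **Machines with one far head** -/
theorem one_far {b : ℕ} (hb : 2 ≤ b) {x : ℝ} (hx : Irrational x) (halg : IsAlgebraic ℚ x)
    [Finite Q] [Finite Γ] (M : Machine k Q Γ) (hM : M.RealTime b x) (j : Fin k)
    (h : ∀ i ≠ j, (fun t : ℕ => ((M.conf t).head i : ℝ)) =o[atTop] fun t : ℕ => Real.log t) :
    (fun t : ℕ => ((M.conf t).head j : ℝ)) =o[atTop] fun t : ℕ => (t : ℝ) := by
  rw [isLittleO_iff]
  intro ε hε
  by_contra hcon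
  have hfar : ∃ᶠ T : ℕ in atTop, ε * T ≤ |((M.one j).hd T : ℝ)| := by
    rw [not_eventually] at hcon
    refine hcon.mono fun T hT => ?_
    rw [Real.norm_eq_abs, Real.norm_eq_abs, Nat.abs_cast, not_le] at hT
    rw [(one_conf M j T).2.1]
    exact hT.le
  obtain ⟨c, hc⟩ := one_real j hM
  have h1 := One.both (d := dig b x) (one_digits j hM) (vis_small M j h) hc hε hfar
  exact no_stam hb hx halg h1

end Pool.Agent.HS38.HS
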