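import Mathlib

/-!
# Multitape Turing machines without input which write a word on an output tape
-/

set_option autoImplicit false

namespace Pool.Agent.HS38.HS

/-- the digit with the number `m` (from `0`) of the fractional part of `x` in base `b` -/
noncomputable def dig (b : ℕ) (x : ℝ) (m : ℕ) : ℕ := (⌊x * (b : ℝ) ^ (m + 1)⌋ % (b : ℤ)).toNat

/-- A deterministic Turing machine without input, with the set `Q` of states, with `k` work tapes
over the alphabet `Γ` and with an output tape. Its action in a step depends on the state and on the
`k` symbols under the heads. -/
structure Machine (k : ℕ) (Q Γ : Type) where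
  /-- the initial state -/
  start : Q
  /-- the symbol in all the cells of the work tapes at the beginning -/
  blank : Γ
  /-- the new state -/
  next : Q → (Fin k → Γ) → Q
  /-- the symbols written on the work tapes -/
  write : Q → (Fin k → Γ) → Fin k → Γ
  /-- the moves of the heads, by `-1`, `0` or `1` -/
  move : Q → (Fin k → Γ) → Fin k → SignType
  /-- the digit written on the output tape, if any -/
  out : Q → (Fin k → Γ) → Option ℕ

/-- A configuration: the state, the positions of the heads, the contents of the work tapes, and the
word on the output tape. -/
structure Config (k : ℕ) (Q Γ : Type) where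
  state : Q
  head : Fin k → ℤ
  tape : Fin k → ℤ → Γ
  output : List ℕ

variable {k : ℕ} {Q Γ : Type}

/-- the symbols under the heads -/
def Config.scan (c : Config k Q Γ) : Fin k → Γ := fun i => c.tape i (c.head i)

/-- the initial configuration -/
def Machine.init (M : Machine k Q Γ) : Config k Q Γ where
  state := M.start
  head := fun _ => 0
  tape := fun _ _ => M.blank
  output := []

/-- one step -/
def Machine.step (M : Machine k Q Γ) (c : Config k Q Γ) : Config k Q Γ where
  state := M.next c.state c.scan
  head := fun i => c.head i + ((M.move c.state c.scan i : SignType) : ℤ)
  tape := fun i => Function.update (c.tape i) (c.head i) (M.write c.state c.scan i)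
  output := c.output ++ (M.out c.state c.scan).toList

/-- the configuration after `t` steps -/
def Machine.conf (M : Machine k Q Γ) (t : ℕ) : Config k Q Γ := M.step^[t] M.init

/-- `M` writes the digits of `x` in base `b` in real time: for some `c` and all `n`, the first `n`
digits of `x` are written after at most `c * n` steps. -/
def Machine.RealTime (M : Machine k Q Γ) (b : ℕ) (x : ℝ) : Prop :=
  ∃ c : ℕ, ∀ n : ℕ, ∃ t ≤ c * n, (List.range n).map (dig b x) <+: (M.conf t).output

end Pool.Agent.HS38.HS
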