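import Pool.Agent.R333.SubR
import Pool.Agent.HS38.HS.Defs

/-!
# Digits of algebraic irrational numbers do not have long repetitions near the beginning

The theorem of Adamczewski, Bugeaud and Luca, deduced from the subspace theorem.
-/

set_option autoImplicit false

open Finset Filter Topology

namespace Pool.Agent.HS38.HS

/-- `⌊x b ^ m⌋` -/
noncomputable def fl (b : ℕ) (x : ℝ) (m : ℕ) : ℤ := ⌊x * (b : ℝ) ^ m⌋

/-- the fractional part of `x b ^ m` -/
noncomputable def sf (b : ℕ) (x : ℝ) (m : ℕ) : ℝ := x * (b : ℝ) ^ m - fl b x m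

lemma sf_nonneg (b : ℕ) (x : ℝ) (m : ℕ) : 0 ≤ sf b x m := sub_nonneg.2 (Int.floor_le _)

lemma sf_lt (b : ℕ) (x : ℝ) (m : ℕ) : sf b x m < 1 := by
  unfold sf fl
  have := Int.lt_floor_add_one (x * (b : ℝ) ^ m)
  linarith

lemma fl_succ {b : ℕ} (hb : 2 ≤ b) (x : ℝ) (m : ℕ) :
    fl b x (m + 1) = b * fl b x m + dig b x m := by
  have hb0 : (0 : ℤ) < b := by exact_mod_cast (by omega : 0 < b)
  have h1 : ((dig b x m : ℕ) : ℤ) = fl b x (m + 1) % (b : ℤ) := by
    unfold dig fl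
    exact Int.toNat_of_nonneg (Int.emod_nonneg _ hb0.ne')
  have h2 : fl b x (m + 1) / (b : ℤ) = fl b x m := by
    unfold fl
    rw [← Int.floor_div_natCast]
    congr 1
    have : (b : ℝ) ≠ 0 := by exact_mod_cast (by omega : b ≠ 0)
    field_simp
    ring
  rw [h1, ← h2]
  exact (Int.mul_ediv_add_emod _ _).symm

/-- equal digits: the fractional parts are close -/
lemma close {b : ℕ} (hb : 2 ≤ b) (x : ℝ) (p q D : ℕ) (h : ∀ y < D, dig b x (p + y) = dig b x (q + y)) :
    |sf b x p - sf b x q| * (b : ℝ) ^ D ≤ 1 := by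
  have h1 : ∀ E ≤ D, fl b x (p + E) - (b : ℤ) ^ E * fl b x p =
      fl b x (q + E) - (b : ℤ) ^ E * fl b x q := by
    intro E
    induction E with
    | zero => intro _; simp
    | succ E ih =>
      intro hE
      have h2 := ih (by omega)
      have h3 := h E (by omega)
      rw [← add_assoc, ← add_assoc, fl_succ hb, fl_succ hb, h3, pow_succ]
      linear_combination (b : ℤ) * h2
  have h2 := h1 D le_rfl
  have h3 : ((fl b x (p + D) : ℤ) : ℝ) - (b : ℝ) ^ D * (fl b x p : ℝ) =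
      (fl b x (q + D) : ℝ) - (b : ℝ) ^ D * (fl b x q : ℝ) := by exact_mod_cast h2
  have h4 : (sf b x p - sf b x q) * (b : ℝ) ^ D = sf b x (p + D) - sf b x (q + D) := by
    unfold sf
    rw [pow_add, pow_add]
    linear_combination h3
  have hbD : (0 : ℝ) < (b : ℝ) ^ D := by positivity
  rw [← abs_of_pos hbD, ← abs_mul, h4, abs_le]
  have h5 := sf_nonneg b x (p + D)
  have h6 := sf_nonneg b x (q + D)
  have h7 := sf_lt b x (p + D)
  have h8 := sf_lt b x (q + D)
  constructor <;> linarith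

/-- the period may be assumed to be long -/
lemma long_period {d : ℕ → ℕ} {κ : ℝ} (hκ : 0 < κ)
    (h : ∀ N : ℕ, ∃ u v D : ℕ, 1 ≤ v ∧ N ≤ D ∧ κ * ((u : ℝ) + v) ≤ D ∧
      ∀ y < D, d (u + v + y) = d (u + y)) :
    ∃ κ' : ℝ, 0 < κ' ∧ κ' ≤ 1 ∧ ∀ N : ℕ, ∃ u v D : ℕ, N ≤ v ∧ κ' * ((u : ℝ) + v) ≤ D ∧
      κ' * ((u : ℝ) + v) ≤ v ∧ ∀ y < D, d (u + v + y) = d (u + y) := by
  refine ⟨1 / (2 / κ + 1), by positivity, ?_, fun N => ?_⟩
  · rw [div_le_one (by positivity)]
    have : 0 < 2 / κ := by positivity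
    linarith
  obtain ⟨u, v, D, hv, hN, hD, hy⟩ := h (2 * N)
  set k := D / (2 * v) with hk
  have hk1 : 2 * v * k ≤ D := Nat.mul_div_le _ _
  have hk2 : D < 2 * v * (k + 1) := Nat.lt_mul_div_succ _ (by omega)
  have e1 : (k + 1) * v = k * v + v := by ring
  have e2 : 2 * v * k = 2 * (k * v) := by ring
  have e3 : 2 * v * (k + 1) = 2 * (k * v) + 2 * v := by ring
  rw [e2] at hk1
  rw [e3] at hk2
  set P := k * v with hP
  have hper : ∀ j ≤ k, ∀ y < D - P, d (u + (j * v + v) + y) = d (u + y) := by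
    intro j
    induction j with
    | zero =>
      intro _ y hy2
      rw [zero_mul, zero_add]
      exact hy y (by omega)
    | succ j ih =>
      intro hj y hy2
      have h1 := ih (by omega) y hy2
      have h2 : (j + 1) * v ≤ P := Nat.mul_le_mul_right _ hj
      have h3 := hy ((j + 1) * v + y) (by omega)
      have e4 : (j + 1) * v = j * v + v := by ring
      rw [← h1]
      rw [e4] at h3 ⊢
      rw [show u + (j * v + v + v) + y = u + v + (j * v + v + y) by ring,
        show u + (j * v + v) + y = u + (j * v + v + y) by ring]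
      exact h3
  refine ⟨u, P + v, D - P, by omega, ?_, ?_, fun y hy2 => ?_⟩
  · have h1 : (D : ℝ) ≤ 2 * ((D - P : ℕ) : ℝ) := by exact_mod_cast (by omega : D ≤ 2 * (D - P))
    have h2 : ((P + v : ℕ) : ℝ) ≤ D / 2 + v := by
      have : 2 * ((P : ℕ) : ℝ) ≤ D := by exact_mod_cast hk1
      push_cast
      linarith
    have h3 : (u : ℝ) + v ≤ D / κ := by rw [le_div_iff₀ hκ]; linarith
    rw [div_mul_eq_mul_div, one_mul, div_le_iff₀ (by positivity)]
    have h4 : (D : ℝ) / κ ≤ ((D - P : ℕ) : ℝ) * (2 / κ) := by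
      rw [div_eq_mul_inv, div_eq_mul_inv, ← mul_assoc]
      exact mul_le_mul_of_nonneg_right (by linarith) (by positivity)
    push_cast at h2 ⊢
    nlinarith
  · have h1 : (D : ℝ) ≤ 2 * ((P + v : ℕ) : ℝ) := by exact_mod_cast (by omega : D ≤ 2 * (P + v))
    have h2 : ((P + v : ℕ) : ℝ) ≤ D / 2 + v := by
      have : 2 * ((P : ℕ) : ℝ) ≤ D := by exact_mod_cast hk1
      push_cast
      linarith
    have h3 : (u : ℝ) + v ≤ D / κ := by rw [le_div_iff₀ hκ]; linarith
    rw [div_mul_eq_mul_div, one_mul, div_le_iff₀ (by positivity)]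
    have h4 : (D : ℝ) / κ ≤ ((P + v : ℕ) : ℝ) * (2 / κ) := by
      rw [div_eq_mul_inv, div_eq_mul_inv, ← mul_assoc]
      exact mul_le_mul_of_nonneg_right (by linarith) (by positivity)
    push_cast at h1 h2 h4 ⊢
    nlinarith
  · exact hper k le_rfl y hy2

/-- a cell for the quotient `u / (u + v)` -/
lemma cell {d : ℕ → ℕ} {κ : ℝ} (K : ℕ)
    (h : ∀ N : ℕ, ∃ u v D : ℕ, N ≤ v ∧ κ * ((u : ℝ) + v) ≤ D ∧
      κ * ((u : ℝ) + v) ≤ v ∧ ∀ y < D, d (u + v + y) = d (u + y)) :
    ∃ j : ℕ, ∀ N : ℕ, ∃ u v D : ℕ, N ≤ v ∧ κ * ((u : ℝ) + v) ≤ D ∧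
      κ * ((u : ℝ) + v) ≤ v ∧ (∀ y < D, d (u + v + y) = d (u + y)) ∧
      j * (u + v) ≤ K * u ∧ K * u ≤ (j + 1) * (u + v) := by
  by_contra hcon
  push Not at hcon
  choose N hN using hcon
  obtain ⟨u, v, D, h1, h2, h3, h4⟩ := h ((range (K + 1)).sup N + 1)
  have huv : 0 < u + v := by omega
  set j := K * u / (u + v) with hj
  have hj1 : j * (u + v) ≤ K * u := Nat.div_mul_le_self _ _
  have hj2 : K * u < (j + 1) * (u + v) := by
    have := Nat.lt_mul_div_succ (K * u) huv
    rw [mul_comm (j + 1)]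
    exact this
  have hjK : j ≤ K := by
    rw [hj]
    apply Nat.div_le_of_le_mul
    calc K * u ≤ K * (u + v) := Nat.mul_le_mul_left _ (by omega)
      _ = (u + v) * K := mul_comm _ _
  have h5 : N j ≤ (range (K + 1)).sup N := le_sup (f := N) (mem_range.2 (by omega))
  have h6 := hN j u v D (by omega) h2 h3 h4 hj1
  omega

lemma lin0 {x : ℝ} (hx : Irrational x) {p q : ℤ} (h : (p : ℝ) + q * x = 0) : p = 0 ∧ q = 0 := by
  have hq : q = 0 := by
    by_contra hq
    apply hx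
    refine ⟨-(p : ℚ) / q, ?_⟩
    have hq' : (q : ℝ) ≠ 0 := by exact_mod_cast hq
    push_cast
    rw [div_eq_iff hq']
    linarith
  subst hq
  refine ⟨?_, rfl⟩
  simpa using h

lemma coef0 {b : ℕ} (hb : 2 ≤ b) {κ : ℝ} (hκ : 0 < κ) (A K : ℝ)
    (h : ∃ᶠ m : ℕ in atTop, |A| * (b : ℝ) ^ (κ * m) ≤ K) : A = 0 := by
  by_contra hA
  have hA' : 0 < |A| := abs_pos.2 hA
  have hb1 : (1 : ℝ) < b := by exact_mod_cast (by omega : 1 < b)
  have h0 : Tendsto (fun m : ℕ => ((b : ℝ) ^ κ) ^ m) atTop atTop :=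
    tendsto_pow_atTop_atTop_of_one_lt (Real.one_lt_rpow hb1 hκ)
  have h1 : Tendsto (fun m : ℕ => |A| * ((b : ℝ) ^ κ) ^ m) atTop atTop := h0.const_mul_atTop hA'
  obtain ⟨m, hm1, hm2⟩ := (h.and_eventually (h1.eventually_gt_atTop K)).exists
  rw [Real.rpow_mul (by positivity), Real.rpow_natCast] at hm1
  linarith

/-- **The theorem of Adamczewski, Bugeaud and Luca.** -/
theorem no_stam {b : ℕ} (hb : 2 ≤ b) {x : ℝ} (hx : Irrational x) (halg : IsAlgebraic ℚ x) :
    ¬ ∃ κ : ℝ, 0 < κ ∧ ∀ N : ℕ, ∃ u v D : ℕ, 1 ≤ v ∧ N ≤ D ∧ κ * ((u : ℝ) + v) ≤ D ∧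
      ∀ y < D, dig b x (u + v + y) = dig b x (u + y) := by
  classical
  rintro ⟨κ₀, hκ₀, h0⟩
  obtain ⟨κ, hκ, hκ1, h1⟩ := long_period hκ₀ h0
  obtain ⟨K, hK⟩ := exists_nat_ge (2 / κ)
  have hKr : (0 : ℝ) < K := lt_of_lt_of_le (by positivity) hK
  have hK0 : 0 < K := by exact_mod_cast hKr
  obtain ⟨j, h2⟩ := cell K h1
  have hb0 : (0 : ℝ) < b := by exact_mod_cast (by omega : 0 < b)
  have hb1 : (1 : ℝ) < b := by exact_mod_cast (by omega : 1 < b)
  have hlb : 0 < Real.log b := Real.log_pos hb1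
  set P : ℕ → Prop := fun m => ∃ u : ℕ, u ≤ m ∧ κ * (m : ℝ) ≤ ((m - u : ℕ) : ℝ) ∧
    j * m ≤ K * u ∧ K * u ≤ (j + 1) * m ∧
    |sf b x m - sf b x u| * (b : ℝ) ^ (κ * m) ≤ 1 with hPdef
  have hP : ∃ᶠ m in atTop, P m := by
    rw [frequently_atTop]
    intro N
    obtain ⟨u, v, D, h3, h4, h5, h6, h7, h8⟩ := h2 N
    refine ⟨u + v, by omega, u, by omega, ?_, h7, h8, ?_⟩
    · rw [show u + v - u = v by omega]
      push_cast
      exact h5
    · have h9 := close hb x (u + v) u D h6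
      refine le_trans (mul_le_mul_of_nonneg_left ?_ (abs_nonneg _)) h9
      rw [← Real.rpow_natCast]
      apply Real.rpow_le_rpow_of_exponent_le hb1.le
      push_cast
      exact h4
  set U : ℕ → ℕ := fun m => if h : P m then h.choose else 0 with hU
  have hUs : ∀ m, P m → U m ≤ m ∧ κ * (m : ℝ) ≤ ((m - U m : ℕ) : ℝ) ∧
    j * m ≤ K * U m ∧ K * U m ≤ (j + 1) * m ∧
    |sf b x m - sf b x (U m)| * (b : ℝ) ^ (κ * m) ≤ 1 := by
    intro m hm
    have : U m = hm.choose := by rw [hU]; exact dif_pos hm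
    rw [this]
    exact hm.choose_spec
  have e0 : IsAlgebraic ℚ (0 : ℝ) := isAlgebraic_zero
  have e1 : IsAlgebraic ℚ (1 : ℝ) := isAlgebraic_one
  obtain ⟨y, hy, hfr⟩ := Pool.Agent.R333.SubR.sub_real (n := 3) (by norm_num) b hb
    (Matrix.of ![![1, 0, 0], ![0, 1, 0], ![x, -x, -1]])
    (by
      intro i j
      fin_cases i <;> fin_cases j <;> simp [e0, e1, halg, halg.neg, e1.neg])
    (by
      intro i j hij
      fin_cases i <;> fin_cases j <;> simp at hij ⊢)
    (by intro i; fin_cases i <;> simp)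
    P hP
    (fun m => ![(b : ℤ) ^ m, (b : ℤ) ^ (U m), fl b x m - fl b x (U m)])
    (by
      intro m _ h
      have h2 := congrFun h 0
      have : (b : ℤ) ≠ 0 := by exact_mod_cast (by omega : b ≠ 0)
      simp only [Matrix.cons_val_zero, Pi.zero_apply] at h2
      exact pow_ne_zero m this h2)
    (fun m => ![b ^ m, b ^ (U m), 1]) 1
    (by
      intro m l hm
      have h3 := (hUs m hm).1
      fin_cases l
      · simp
      · simpa using pow_dvd_pow b h3
      · simp)
    (by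
      intro m l _
      fin_cases l <;> simp)
    ![1, ((j : ℝ) + 1) / K, -κ] 1 one_pos
    (by
      intro m l hm
      obtain ⟨g1, g2, g3, g4, g5⟩ := hUs m hm
      fin_cases l
      · simp only [Fin.zero_eta, Fin.isValue, Matrix.of_apply, Fin.sum_univ_three,
          Matrix.cons_val_zero, Matrix.cons_val_one, Matrix.cons_val]
        push_cast
        rw [one_mul, one_mul, one_mul, zero_mul, zero_mul, add_zero, add_zero, Real.rpow_natCast,
          abs_of_nonneg (by positivity)]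
      · simp only [Fin.mk_one, Fin.isValue, Matrix.of_apply, Fin.sum_univ_three,
          Matrix.cons_val_zero, Matrix.cons_val_one, Matrix.cons_val]
        push_cast
        rw [zero_mul, zero_mul, one_mul, zero_add, add_zero, one_mul, abs_of_nonneg (by positivity),
          ← Real.rpow_natCast]
        apply Real.rpow_le_rpow_of_exponent_le hb1.le
        rw [div_mul_eq_mul_div, le_div_iff₀ hKr]
        have : ((K * U m : ℕ) : ℝ) ≤ (((j + 1) * m : ℕ) : ℝ) := by exact_mod_cast g4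
        push_cast at this
        linarith
      · simp only [Fin.reduceFinMk, Fin.isValue, Matrix.of_apply, Fin.sum_univ_three,
          Matrix.cons_val_zero, Matrix.cons_val_one, Matrix.cons_val]
        push_cast
        have e : x * (b : ℝ) ^ m + -x * (b : ℝ) ^ (U m) +
            -1 * ((fl b x m : ℝ) - (fl b x (U m) : ℝ)) = sf b x m - sf b x (U m) := by
          unfold sf; ring
        rw [e, one_mul, neg_mul, Real.rpow_neg hb0.le, ← one_div, le_div_iff₀ (by positivity)]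
        exact g5)
    (κ / 2) (by positivity)
    (by
      intro m hm
      obtain ⟨g1, g2, g3, g4, g5⟩ := hUs m hm
      simp only [Fin.sum_univ_three, Matrix.cons_val_zero, Matrix.cons_val_one, Matrix.cons_val]
      push_cast
      rw [Real.log_pow, Real.log_pow, Real.log_one, add_zero]
      have h3 : (((j : ℝ) + 1) / K) * m ≤ U m + κ / 2 * m := by
        have h4 : (j : ℝ) * m ≤ K * U m := by exact_mod_cast g3
        have h5 : (j : ℝ) / K * m ≤ U m := by
          rw [div_mul_eq_mul_div, div_le_iff₀ hKr]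
          linarith
        have h6 : 1 / (K : ℝ) ≤ κ / 2 := by
          rw [div_le_iff₀ hKr]
          rw [div_le_iff₀ hκ] at hK
          linarith
        have h7 := mul_le_mul_of_nonneg_right h6 (Nat.cast_nonneg m : (0 : ℝ) ≤ m)
        rw [add_div, add_mul]
        linarith
      have h4 : (1 + ((j : ℝ) + 1) / K + -κ + κ / 2) * m ≤ m + U m := by linarith
      have h5 := mul_le_mul_of_nonneg_right h4 hlb.le
      linarith)
  -- the relation is trivial
  have key : ∀ m, P m → ∑ l, y l * ![(b : ℤ) ^ m, (b : ℤ) ^ (U m), fl b x m - fl b x (U m)] l = 0 →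
      ((y 0 : ℝ) + y 2 * x) * (b : ℝ) ^ m + ((y 1 : ℝ) - y 2 * x) * (b : ℝ) ^ (U m) -
        y 2 * (sf b x m - sf b x (U m)) = 0 := by
    intro m _ h3
    simp only [Fin.sum_univ_three, Matrix.cons_val_zero, Matrix.cons_val_one, Matrix.cons_val] at h3
    have h4 : (y 0 : ℝ) * (b : ℝ) ^ m + y 1 * (b : ℝ) ^ (U m) +
        y 2 * ((fl b x m : ℝ) - fl b x (U m)) = 0 := by exact_mod_cast h3
    unfold sf
    linear_combination h4
  have hA : (y 0 : ℝ) + y 2 * x = 0 := by
    apply coef0 hb hκ _ (|(y 1 : ℝ) - y 2 * x| + |(y 2 : ℝ)|)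
    refine hfr.mono fun m hm => ?_
    obtain ⟨g1, g2, g3, g4, g5⟩ := hUs m hm.1
    have h3 := key m hm.1 hm.2
    have hBU : (1 : ℝ) ≤ (b : ℝ) ^ (U m) := one_le_pow₀ hb1.le
    have h4 : |(y 0 : ℝ) + y 2 * x| * (b : ℝ) ^ m ≤
        (|(y 1 : ℝ) - y 2 * x| + |(y 2 : ℝ)|) * (b : ℝ) ^ (U m) := by
      have h5 : ((y 0 : ℝ) + y 2 * x) * (b : ℝ) ^ m =
          -(((y 1 : ℝ) - y 2 * x) * (b : ℝ) ^ (U m)) + y 2 * (sf b x m - sf b x (U m)) := by
        linear_combination h3
      have h6 : |(y 0 : ℝ) + y 2 * x| * (b : ℝ) ^ m =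
          |((y 0 : ℝ) + y 2 * x) * (b : ℝ) ^ m| := by
        rw [abs_mul, abs_of_pos (by positivity : (0 : ℝ) < (b : ℝ) ^ m)]
      rw [h6, h5]
      refine (abs_add_le _ _).trans ?_
      rw [abs_neg, abs_mul, abs_mul, abs_of_pos (by positivity : (0 : ℝ) < (b : ℝ) ^ (U m)), add_mul]
      have h7 : |sf b x m - sf b x (U m)| ≤ 1 := by
        rw [abs_le]
        have := sf_nonneg b x m
        have := sf_nonneg b x (U m)
        have := sf_lt b x m
        have := sf_lt b x (U m)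
        constructor <;> linarith
      have h8 : |(y 2 : ℝ)| * |sf b x m - sf b x (U m)| ≤ |(y 2 : ℝ)| * (b : ℝ) ^ (U m) :=
        mul_le_mul_of_nonneg_left (h7.trans hBU) (abs_nonneg _)
      linarith
    have h5 : (b : ℝ) ^ m = (b : ℝ) ^ (m - U m) * (b : ℝ) ^ (U m) := by
      rw [← pow_add]
      congr 1
      omega
    rw [h5, ← mul_assoc] at h4
    have h6 := le_of_mul_le_mul_right h4 (by positivity)
    refine le_trans (mul_le_mul_of_nonneg_left ?_ (abs_nonneg _)) h6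
    rw [← Real.rpow_natCast]
    exact Real.rpow_le_rpow_of_exponent_le hb1.le g2
  obtain ⟨hy0, hy2⟩ := lin0 hx hA
  obtain ⟨m, hm⟩ := hfr.exists
  have h3 := key m hm.1 hm.2
  rw [hA, hy2] at h3
  simp only [Int.cast_zero, zero_mul, sub_zero, zero_add] at h3
  have hy1 : y 1 = 0 := by
    rcases mul_eq_zero.1 h3 with h | h
    · exact_mod_cast h
    · exact absurd h (by positivity)
  apply hy
  funext l
  fin_cases l
  · exact hy0
  · exact hy1
  · exact hy2

end Pool.Agent.HS38.HS
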