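import Pool.Agent.HS38.HS.Rep

/-!
# Machines which write far to the right have repetitions in their output
-/

set_option autoImplicit false

open Finset Filter Topology

namespace Pool.Agent.HS38.HS

/-- the sequence `d` has long repetitions near its beginning -/
def Stam (d : ℕ → ℕ) : Prop :=
  ∃ κ : ℝ, 0 < κ ∧ ∀ N : ℕ, ∃ u v D : ℕ, 1 ≤ v ∧ N ≤ D ∧ κ * ((u : ℝ) + v) ≤ D ∧
    ∀ y < D, d (u + v + y) = d (u + y)

namespace One

variable {S Γ : Type} {M : One S Γ}

/-- two boundaries with the same signature -/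
lemma two_boundaries {d : ℕ → ℕ} (hd : ∀ t c, M.w t = some c → c = d (M.len t)) {i i' : ℤ}
    (hi : 0 ≤ i) (hi' : 0 ≤ i') (hii : i ≠ i') {T m k a a' r r' : ℕ} (hk : k < m)
    (ha : M.Kth i k a) (ha' : M.Kth i' k a') (haT : a < T) (haT' : a' < T)
    (hsg : ∀ l < m, M.sg T i l = M.sg T i' l)
    (hr : ∀ s < r, i < M.hd (a + 1 + s)) (hr' : ∀ s < r', i' < M.hd (a' + 1 + s))
    (c : ℝ) (hc0 : 0 ≤ c) (hc : c < ((M.len (a + 1 + r) - M.len (a + 1) : ℕ) : ℝ))
    (hc' : c < ((M.len (a' + 1 + r') - M.len (a' + 1) : ℕ) : ℝ)) :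
    ∃ u v D : ℕ, 1 ≤ v ∧ u + v ≤ T ∧ c < (D : ℝ) ∧ ∀ y < D, d (u + v + y) = d (u + y) := by
  have hag : M.Agree i i' (a + 1) (a' + 1) := by
    apply agree_kth hi hi' k a a' ha ha'
    intro l hl b b' hb hb'
    have h1 := kth_le hl hb ha
    have h2 := kth_le hl hb' ha'
    rw [← sg_eq (show b < T by omega) hb, ← sg_eq (show b' < T by omega) hb']
    exact hsg l (by omega)
  have haa : a ≠ a' := by
    intro h
    subst h
    exact hii ((up_eq ha.1).symm.trans (up_eq ha'.1))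
  have hw : ∀ s < r, M.w (a + 1 + s) = M.w (a' + 1 + s) := fun s hs =>
    (hag.run s fun z hz => hr z (by omega)).w (hr s hs)
  have hw' : ∀ s < r', M.w (a' + 1 + s) = M.w (a + 1 + s) := fun s hs =>
    (hag.symm.run s fun z hz => hr' z (by omega)).w (hr' s hs)
  have hp : 0 < M.len (a + 1 + r) - M.len (a + 1) := by
    have : (0 : ℝ) < ((M.len (a + 1 + r) - M.len (a + 1) : ℕ) : ℝ) := lt_of_le_of_lt hc0 hc
    exact_mod_cast this
  have hne : M.len (a + 1) ≠ M.len (a' + 1) := (rep_ne (fun s hs => (hw s hs).symm)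
    (by omega : a' + 1 ≠ a + 1) hp).symm
  have e1 := len_le (M := M) (a + 1)
  have e2 := len_le (M := M) (a' + 1)
  rcases lt_or_gt_of_ne hne with h | h
  · refine ⟨M.len (a + 1), M.len (a' + 1) - M.len (a + 1), M.len (a + 1 + r) - M.len (a + 1),
      by omega, by omega, hc, fun y hy => ?_⟩
    rw [show M.len (a + 1) + (M.len (a' + 1) - M.len (a + 1)) = M.len (a' + 1) by omega]
    exact rep_eq hd (fun s hs => (hw s hs).symm) y hy
  · refine ⟨M.len (a' + 1), M.len (a + 1) - M.len (a' + 1), M.len (a + 1 + r) - M.len (a + 1),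
      by omega, by omega, hc, fun y hy => ?_⟩
    rw [show M.len (a' + 1) + (M.len (a + 1) - M.len (a' + 1)) = M.len (a + 1) by omega]
    exact (rep_eq hd (fun s hs => (hw s hs).symm) y hy).symm

/-- one scale -/
lemma scale {d : ℕ → ℕ} (hd : ∀ t c, M.w t = some c → c = d (M.len t)) {ε : ℝ} (hε : 0 < ε)
    {m T : ℕ} (hm : 2 / ε ≤ m) (hT : 0 < T)
    (hfar : ε * T ≤ (((range T).filter (fun t => (M.w t).isSome = true ∧
      ε * T ≤ (M.hd t : ℝ))).card : ℝ))
    (hvis : (m : ℝ) * ((M.vis T).card : ℝ) ^ m < ε * T / 2) :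
    ∃ u v D : ℕ, 1 ≤ v ∧ u + v ≤ T ∧ ε * T / (2 * m) < (D : ℝ) ∧
      ∀ y < D, d (u + v + y) = d (u + y) := by
  classical
  have hTr : (0 : ℝ) < T := by exact_mod_cast hT
  have hεT : 0 < ε * T := by positivity
  have hmr : (0 : ℝ) < m := lt_of_lt_of_le (by positivity) hm
  have hm0 : 0 < m := by exact_mod_cast hmr
  set F := (range T).filter (fun t => (M.w t).isSome = true ∧ ε * T ≤ (M.hd t : ℝ)) with hF
  set L := ⌈ε * T⌉₊ with hL
  have hLe : ε * T ≤ L := Nat.le_ceil _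
  have hiL : ∀ i < L, (i : ℝ) < ε * T := fun i hi => Nat.lt_ceil.1 hi
  set G := (range L).filter (fun i : ℕ => M.ups (i : ℤ) T ≤ m) with hG
  -- many good boundaries
  have hGc : ε * T / 2 ≤ (G.card : ℝ) := by
    have h1 := card_filter_add_card_filter_not (s := range L)
      (fun i : ℕ => M.ups (i : ℤ) T ≤ m)
    rw [card_range] at h1
    have h2 : (m + 1) * ((range L).filter (fun i : ℕ => ¬ M.ups (i : ℤ) T ≤ m)).card ≤ T := by
      refine le_trans ?_ (sum_ups (M := M) L T)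
      calc (m + 1) * ((range L).filter (fun i : ℕ => ¬ M.ups (i : ℤ) T ≤ m)).card
          = ∑ i ∈ (range L).filter (fun i : ℕ => ¬ M.ups (i : ℤ) T ≤ m), (m + 1) := by
            rw [sum_const, smul_eq_mul, mul_comm]
        _ ≤ ∑ i ∈ (range L).filter (fun i : ℕ => ¬ M.ups (i : ℤ) T ≤ m), M.ups (i : ℤ) T := by
            apply sum_le_sum
            intro i hi
            have := (mem_filter.1 hi).2
            omega
        _ ≤ ∑ i ∈ range L, M.ups (i : ℤ) T :=
            sum_le_sum_of_subset (filter_subset _ _)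
    set B := ((range L).filter (fun i : ℕ => ¬ M.ups (i : ℤ) T ≤ m)).card with hB
    have h3 : ((m : ℝ) + 1) * B ≤ T := by exact_mod_cast h2
    have h4 : (G.card : ℝ) + B = L := by exact_mod_cast h1
    have h5 : (m : ℝ) * B ≤ T := by
      have : (0 : ℝ) ≤ B := Nat.cast_nonneg _
      linarith
    have h6 : (B : ℝ) ≤ ε * T / 2 := by
      have h7 : 2 / ε * B ≤ T := le_trans (mul_le_mul_of_nonneg_right hm (Nat.cast_nonneg _)) h5
      have h8 : 2 * (B : ℝ) ≤ ε * T := by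
        have := mul_le_mul_of_nonneg_left h7 hε.le
        have e : ε * (2 / ε * (B : ℝ)) = 2 * B := by field_simp
        linarith
      linarith
    linarith
  -- heavy excursions
  have hheavy : ∀ i : ℕ, i ∈ G → ∃ k < m, ∃ a < T, M.Kth (i : ℤ) k a ∧
      ∃ r, (∀ s < r, (i : ℤ) < M.hd (a + 1 + s)) ∧ a + 1 + r ≤ T ∧
      ε * T / (2 * m) < ((M.len (a + 1 + r) - M.len (a + 1) : ℕ) : ℝ) := by
    intro i hi
    rw [hG, mem_filter, mem_range] at hi
    apply heavy (Int.natCast_nonneg i) hi.2 F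
    · intro t ht
      rw [hF, mem_filter, mem_range] at ht
      refine ⟨ht.1, ht.2.1, ?_⟩
      have h1 := hiL i hi.1
      have h2 : ((i : ℤ) : ℝ) < (M.hd t : ℝ) := by
        rw [Int.cast_natCast]
        linarith [ht.2.2]
      exact_mod_cast h2
    · positivity
    · have e : (m : ℝ) * (ε * T / (2 * m)) = ε * T / 2 := by field_simp
      rw [e]
      linarith
  choose! k hk a haT hkth r hr hrT hrD using hheavy
  -- the signatures
  have hcard : ((range m) ×ˢ (Fintype.piFinset fun _ : Fin m => M.vis T)).card < G.card := by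
    rw [card_product, card_range, Fintype.card_piFinset, prod_const, card_univ, Fintype.card_fin]
    have : ((m * (M.vis T).card ^ m : ℕ) : ℝ) < (G.card : ℝ) := by
      push_cast
      linarith
    exact_mod_cast this
  obtain ⟨i, hi, i', hi', hne, heq⟩ := exists_ne_map_eq_of_card_lt_of_maps_to hcard
    (f := fun i : ℕ => (k i, fun l : Fin m => M.sg T (i : ℤ) l)) (by
      intro i hi
      rw [mem_coe, mem_product, Fintype.mem_piFinset]
      exact ⟨mem_range.2 (hk i hi), fun l => sg_mem _ _ _⟩)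
  rw [Prod.mk.injEq] at heq
  obtain ⟨hkk, hsg⟩ := heq
  have hkth' := hkth i' hi'
  rw [← hkk] at hkth'
  exact two_boundaries hd (Int.natCast_nonneg i) (Int.natCast_nonneg i') (by exact_mod_cast hne)
    (hk i hi) (hkth i hi) hkth' (haT i hi) (haT i' hi')
    (fun l hl => congrFun hsg ⟨l, hl⟩) (hr i hi) (hr i' hi') _
    (by positivity) (hrD i hi) (hrD i' hi')

/-- many digits are written far to the right for infinitely many times -/
theorem right {d : ℕ → ℕ} (hd : ∀ t c, M.w t = some c → c = d (M.len t))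
    (hvis : ∀ η : ℝ, 0 < η → ∀ᶠ T : ℕ in atTop, ((M.vis T).card : ℝ) ≤ (T : ℝ) ^ η) {ε : ℝ}
    (hε : 0 < ε)
    (hfar : ∃ᶠ T : ℕ in atTop, ε * T ≤ (((range T).filter (fun t => (M.w t).isSome = true ∧
      ε * T ≤ (M.hd t : ℝ))).card : ℝ)) : Stam d := by
  obtain ⟨m, hm⟩ := exists_nat_ge (2 / ε)
  have hmr : (0 : ℝ) < m := lt_of_lt_of_le (by positivity) hm
  refine ⟨ε / (2 * m), by positivity, fun N => ?_⟩
  have h1 := hvis (1 / (2 * m)) (by positivity)
  -- `m T ^ (1/2) < ε T / 2` for large `T`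
  have h2 : ∀ᶠ T : ℕ in atTop, (m : ℝ) * (T : ℝ) ^ (1 / 2 : ℝ) < ε * T / 2 := by
    have h3 : Tendsto (fun T : ℕ => (T : ℝ) ^ (1 / 2 : ℝ)) atTop atTop :=
      (tendsto_rpow_atTop (by norm_num)).comp tendsto_natCast_atTop_atTop
    filter_upwards [h3.eventually_gt_atTop (2 * m / ε), eventually_gt_atTop 0] with T hT hT0
    have hTr : (0 : ℝ) < T := by exact_mod_cast hT0
    have h4 : (T : ℝ) = (T : ℝ) ^ (1 / 2 : ℝ) * (T : ℝ) ^ (1 / 2 : ℝ) := by
      rw [← Real.rpow_add hTr]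
      norm_num
    have h5 : 0 < (T : ℝ) ^ (1 / 2 : ℝ) := Real.rpow_pos_of_pos hTr _
    rw [div_lt_iff₀ hε] at hT
    have h6 := mul_lt_mul_of_pos_right hT h5
    have h7 : ε * T / 2 = ((T : ℝ) ^ (1 / 2 : ℝ) * ε * (T : ℝ) ^ (1 / 2 : ℝ)) / 2 := by
      conv_lhs => rw [h4]
      ring
    rw [h7]
    linarith
  have h3 : ∀ᶠ T : ℕ in atTop, (N : ℝ) ≤ ε * T / (2 * m) := by
    have h4 : Tendsto (fun T : ℕ => ε / (2 * m) * (T : ℝ)) atTop atTop :=
      tendsto_natCast_atTop_atTop.const_mul_atTop (by positivity)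
    filter_upwards [h4.eventually_ge_atTop (N : ℝ)] with T hT
    calc (N : ℝ) ≤ ε / (2 * m) * T := hT
      _ = ε * T / (2 * m) := by ring
  obtain ⟨T, hT, hT1, hT2, hT3, hT0⟩ :=
    (hfar.and_eventually (h1.and (h2.and (h3.and (eventually_gt_atTop 0))))).exists
  have hTr : (0 : ℝ) < T := by exact_mod_cast hT0
  obtain ⟨u, v, D, hv, huv, hD, hy⟩ := scale hd hε hm hT0 hT (by
    refine lt_of_le_of_lt (mul_le_mul_of_nonneg_left ?_ hmr.le) hT2
    calc ((M.vis T).card : ℝ) ^ m ≤ ((T : ℝ) ^ (1 / (2 * m) : ℝ)) ^ m :=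
          pow_le_pow_left₀ (Nat.cast_nonneg _) hT1 m
      _ = (T : ℝ) ^ (1 / 2 : ℝ) := by
          rw [← Real.rpow_natCast, ← Real.rpow_mul hTr.le]
          congr 1
          field_simp)
  refine ⟨u, v, D, hv, ?_, ?_, hy⟩
  · have : (N : ℝ) ≤ D := hT3.trans hD.le
    exact_mod_cast this
  · have h4 : ((u : ℝ) + v) ≤ T := by exact_mod_cast huv
    calc ε / (2 * m) * ((u : ℝ) + v) ≤ ε / (2 * m) * T :=
          mul_le_mul_of_nonneg_left h4 (by positivity)
      _ = ε * T / (2 * m) := by ring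
      _ ≤ D := hD.le

end One

end Pool.Agent.HS38.HS
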