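import Pool.Agent.HS38.HS.Back
import Pool.Agent.HS38.HS.Crit

/-!
# Machines with several tapes, all but one of which are short
-/

set_option autoImplicit false

open Finset Filter Topology

namespace Pool.Agent.HS38.HS

/-! ### reflection -/

namespace One

variable {S Γ : Type}

/-- the reflected machine -/
def refl (M : One S Γ) : One S Γ where
  blank := M.blank
  start := M.start
  next := M.next
  write := M.write
  move := fun s a => - M.move s a
  out := M.out

variable {M : One S Γ}

lemma refl_cfg (t : ℕ) : M.refl.st t = M.st t ∧ M.refl.hd t = - M.hd t ∧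
    ∀ y, M.refl.tp t y = M.tp t (-y) := by
  induction t with
  | zero => exact ⟨rfl, by rw [hd_zero, hd_zero, neg_zero], fun y => rfl⟩
  | succ t ih =>
    obtain ⟨h1, h2, h3⟩ := ih
    have h4 : M.refl.tp t (M.refl.hd t) = M.tp t (M.hd t) := by rw [h3, h2, neg_neg]
    refine ⟨?_, ?_, fun y => ?_⟩
    · rw [st_succ, st_succ, h1, h4]
      rfl
    · rw [hd_succ, hd_succ, h4, h1, h2]
      show - M.hd t + ((- M.move (M.st t) (M.tp t (M.hd t)) : SignType) : ℤ) = _
      have : ∀ s : SignType, ((- s : SignType) : ℤ) = - (s : ℤ) := by decide
      rw [this]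
      ring
    · rw [tp_succ, tp_succ, h4, h1, h2]
      by_cases hc : y = - M.hd t
      · rw [hc, neg_neg, Function.update_self, Function.update_self]
        rfl
      · rw [Function.update_of_ne hc, Function.update_of_ne (by
          intro h
          apply hc
          rw [← h, neg_neg]), h3]

lemma refl_w (t : ℕ) : M.refl.w t = M.w t := by
  obtain ⟨h1, h2, h3⟩ := refl_cfg (M := M) t
  unfold w
  rw [h1, h3, h2, neg_neg]
  rfl

lemma refl_len (t : ℕ) : M.refl.len t = M.len t := by
  unfold len
  congr 1
  funext s
  rw [refl_w]

lemma refl_vis (t : ℕ) : M.refl.vis t = M.vis t := by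
  unfold vis
  congr 1
  funext s
  exact (refl_cfg s).1

theorem both {d : ℕ → ℕ} (hd : ∀ t c, M.w t = some c → c = d (M.len t))
    (hvis : ∀ η : ℝ, 0 < η → ∀ᶠ T : ℕ in atTop, ((M.vis T).card : ℝ) ≤ (T : ℝ) ^ η)
    {c : ℕ} (hreal : ∀ n, n ≤ M.len (c * n)) {ε : ℝ} (hε : 0 < ε)
    (hfar : ∃ᶠ T : ℕ in atTop, ε * T ≤ |(M.hd T : ℝ)|) : Stam d := by
  have h1 : ∃ᶠ T : ℕ in atTop, ε * T ≤ (M.hd T : ℝ) ∨ ε * T ≤ (M.refl.hd T : ℝ) := by
    refine hfar.mono fun T hT => ?_
    rw [(refl_cfg T).2.1]
    push_cast
    rcases le_abs.1 hT with h | h
    · exact Or.inl h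
    · exact Or.inr h
  rw [frequently_or_distrib] at h1
  rcases h1 with h1 | h1
  · exact main hd hvis hreal hε h1
  · refine main (M := M.refl) ?_ ?_ (c := c) ?_ hε h1
    · intro t a ha
      rw [refl_w] at ha
      rw [refl_len]
      exact hd t a ha
    · intro η hη
      filter_upwards [hvis η hη] with T hT
      rw [refl_vis]
      exact hT
    · intro n
      rw [refl_len]
      exact hreal n

end One

/-! ### several tapes -/

variable {k : ℕ} {Q Γ : Type}

lemma conf_succ (M : Machine k Q Γ) (t : ℕ) : M.conf (t + 1) = M.step (M.conf t) :=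
  Function.iterate_succ_apply' _ _ _

/-- the tape `j` is considered as the only one -/
def Machine.one (M : Machine k Q Γ) (j : Fin k) : One (Q × (Fin k → ℤ) × (Fin k → ℤ → Γ)) Γ where
  blank := M.blank
  start := (M.start, fun _ => 0, fun _ _ => M.blank)
  next := fun s a =>
    (M.next s.1 (Function.update (fun i => s.2.2 i (s.2.1 i)) j a),
      Function.update (fun i => s.2.1 i +
        ((M.move s.1 (Function.update (fun i => s.2.2 i (s.2.1 i)) j a) i : SignType) : ℤ)) j 0,
      Function.update (fun i => Function.update (s.2.2 i) (s.2.1 i)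
        (M.write s.1 (Function.update (fun i => s.2.2 i (s.2.1 i)) j a) i)) j fun _ => M.blank)
  write := fun s a => M.write s.1 (Function.update (fun i => s.2.2 i (s.2.1 i)) j a) j
  move := fun s a => M.move s.1 (Function.update (fun i => s.2.2 i (s.2.1 i)) j a) j
  out := fun s a => M.out s.1 (Function.update (fun i => s.2.2 i (s.2.1 i)) j a)

lemma one_conf (M : Machine k Q Γ) (j : Fin k) (t : ℕ) :
    (M.one j).st t = ((M.conf t).state, Function.update (M.conf t).head j 0,
      Function.update (M.conf t).tape j fun _ => M.blank) ∧
    (M.one j).hd t = (M.conf t).head j ∧ (M.one j).tp t = (M.conf t).tape j := by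
  induction t with
  | zero =>
    refine ⟨?_, rfl, rfl⟩
    show (M.start, _, _) = (M.start, Function.update (fun _ => (0 : ℤ)) j 0,
      Function.update (fun _ _ => M.blank) j fun _ => M.blank)
    rw [Function.update_eq_self_iff.2 rfl, Function.update_eq_self_iff.2 rfl]
  | succ t ih =>
    obtain ⟨h1, h2, h3⟩ := ih
    have hs : Function.update (fun i => ((M.one j).st t).2.2 i (((M.one j).st t).2.1 i)) j
        ((M.one j).tp t ((M.one j).hd t)) = (M.conf t).scan := by
      funext i
      by_cases hi : i = j
      · subst hi
        rw [Function.update_self, h2, h3]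
        rfl
      · rw [Function.update_of_ne hi, h1]
        show Function.update (M.conf t).tape j _ i (Function.update (M.conf t).head j 0 i) = _
        rw [Function.update_of_ne hi, Function.update_of_ne hi]
        rfl
    have hq : ((M.one j).st t).1 = (M.conf t).state := by rw [h1]
    refine ⟨?_, ?_, ?_⟩
    · rw [One.st_succ]
      show (M.next ((M.one j).st t).1 (Function.update _ j _), Function.update _ j 0,
        Function.update _ j _) = _
      rw [hs, hq, conf_succ]
      rw [Prod.mk.injEq, Prod.mk.injEq]
      refine ⟨rfl, ?_, ?_⟩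
      · funext i
        by_cases hi : i = j
        · subst hi
          rw [Function.update_self, Function.update_self]
        · rw [Function.update_of_ne hi, Function.update_of_ne hi, h1]
          show Function.update (M.conf t).head j 0 i + _ = _
          rw [Function.update_of_ne hi]
          rfl
      · funext i
        by_cases hi : i = j
        · subst hi
          rw [Function.update_self, Function.update_self]
        · rw [Function.update_of_ne hi, Function.update_of_ne hi, h1]
          show Function.update (Function.update (M.conf t).tape j _ i)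
            (Function.update (M.conf t).head j 0 i) _ = _
          rw [Function.update_of_ne hi, Function.update_of_ne hi]
          rfl
    · rw [One.hd_succ]
      show (M.one j).hd t + ((M.move ((M.one j).st t).1 (Function.update _ j _) j : SignType) : ℤ) = _
      rw [hs, hq, conf_succ, h2]
      rfl
    · rw [One.tp_succ]
      show Function.update ((M.one j).tp t) ((M.one j).hd t)
        (M.write ((M.one j).st t).1 (Function.update _ j _) j) = _
      rw [hs, hq, conf_succ, h2, h3]
      rfl

lemma one_w (M : Machine k Q Γ) (j : Fin k) (t : ℕ) :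
    (M.one j).w t = M.out (M.conf t).state (M.conf t).scan := by
  obtain ⟨h1, h2, h3⟩ := one_conf M j t
  have hs : Function.update (fun i => ((M.one j).st t).2.2 i (((M.one j).st t).2.1 i)) j
      ((M.one j).tp t ((M.one j).hd t)) = (M.conf t).scan := by
    funext i
    by_cases hi : i = j
    · subst hi
      rw [Function.update_self, h2, h3]
      rfl
    · rw [Function.update_of_ne hi, h1]
      show Function.update (M.conf t).tape j _ i (Function.update (M.conf t).head j 0 i) = _
      rw [Function.update_of_ne hi, Function.update_of_ne hi]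
      rfl
  unfold One.w
  show M.out ((M.one j).st t).1 (Function.update _ j _) = _
  rw [hs, h1]

lemma output_len (M : Machine k Q Γ) (j : Fin k) (t : ℕ) :
    (M.conf t).output.length = (M.one j).len t := by
  induction t with
  | zero => rw [One.len_zero]; rfl
  | succ t ih =>
    rw [conf_succ]
    show ((M.conf t).output ++ (M.out (M.conf t).state (M.conf t).scan).toList).length = _
    rw [List.length_append, ih, ← one_w M j]
    cases h : (M.one j).w t with
    | none => rw [One.len_none h]; rfl
    | some a => rw [One.len_some h]; rfl

lemma output_mono (M : Machine k Q Γ) {s t : ℕ} (h : s ≤ t) :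
    (M.conf s).output <+: (M.conf t).output := by
  induction t, h using Nat.le_induction with
  | base => exact List.prefix_rfl
  | succ t _ ih =>
    rw [conf_succ]
    exact ih.trans (List.prefix_append _ _)

lemma one_digits {M : Machine k Q Γ} {b : ℕ} {x : ℝ} (j : Fin k)
    (h : M.RealTime b x) (t a : ℕ) (ha : (M.one j).w t = some a) :
    a = dig b x ((M.one j).len t) := by
  obtain ⟨c, hc⟩ := h
  obtain ⟨s, -, hs⟩ := hc ((M.one j).len t + 1)
  -- the output at the time `t + 1`
  have h1 : (M.conf (t + 1)).output = (M.conf t).output ++ [a] := by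
    rw [conf_succ]
    show (M.conf t).output ++ (M.out (M.conf t).state (M.conf t).scan).toList = _
    rw [← one_w M j, ha]
    rfl
  have h2 := output_mono M (le_max_left (t + 1) s)
  have h3 := hs.trans (output_mono M (le_max_right (t + 1) s))
  set w := (M.conf (max (t + 1) s)).output with hw
  have h4 : w[(M.one j).len t]? = some a := by
    have h5 : (M.conf (t + 1)).output[(M.one j).len t]? = some a := by
      rw [h1, ← output_len M j, List.getElem?_concat_length]
    obtain ⟨u, hu⟩ := h2
    rw [← hu, List.getElem?_append_left, h5]
    rw [h1, List.length_append, output_len M j]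
    simp
  have h5 : w[(M.one j).len t]? = some (dig b x ((M.one j).len t)) := by
    obtain ⟨u, hu⟩ := h3
    rw [← hu, List.getElem?_append_left (by simp)]
    simp
  rw [h4] at h5
  exact Option.some.inj h5

lemma one_real {M : Machine k Q Γ} {b : ℕ} {x : ℝ} (j : Fin k)
    (h : M.RealTime b x) : ∃ c : ℕ, ∀ n, n ≤ (M.one j).len (c * n) := by
  obtain ⟨c, hc⟩ := h
  refine ⟨c, fun n => ?_⟩
  obtain ⟨t, ht, h1⟩ := hc n
  have h2 := h1.length_le
  rw [List.length_map, List.length_range, output_len M j] at h2
  exact h2.trans (One.len_mono ht)

end Pool.Agent.HS38.HS
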