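import Mathlib

/-!
# Machines with one tape and without input: excursions to the right of a boundary

The states form an arbitrary set `S`. If the states at the first `k + 1` crossings (to the right) of two
boundaries are the same then the excursions after these crossings are translates of each other.
-/

set_option autoImplicit false

namespace Pool.Agent.HS38.HS

/-- A one-tape machine without input, with an arbitrary set `S` of states. -/
structure One (S Γ : Type) where
  blank : Γ
  start : S
  next : S → Γ → S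
  write : S → Γ → Γ
  move : S → Γ → SignType
  out : S → Γ → Option ℕ

namespace One

variable {S Γ : Type} (M : One S Γ)

/-- configuration: state, position, tape -/
noncomputable def cfg : ℕ → S × ℤ × (ℤ → Γ)
  | 0 => (M.start, 0, fun _ => M.blank)
  | t + 1 => (M.next (cfg t).1 ((cfg t).2.2 (cfg t).2.1),
      (cfg t).2.1 + (M.move (cfg t).1 ((cfg t).2.2 (cfg t).2.1) : ℤ),
      Function.update (cfg t).2.2 (cfg t).2.1 (M.write (cfg t).1 ((cfg t).2.2 (cfg t).2.1)))

/-- the state -/
noncomputable def st (t : ℕ) : S := (M.cfg t).1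

/-- the position of the head -/
noncomputable def hd (t : ℕ) : ℤ := (M.cfg t).2.1

/-- the tape -/
noncomputable def tp (t : ℕ) : ℤ → Γ := (M.cfg t).2.2

/-- what is written on the output tape in step `t` -/
noncomputable def w (t : ℕ) : Option ℕ := M.out (M.st t) (M.tp t (M.hd t))

lemma hd_zero : M.hd 0 = 0 := rfl

lemma tp_zero (y : ℤ) : M.tp 0 y = M.blank := rfl

lemma st_succ (t : ℕ) : M.st (t + 1) = M.next (M.st t) (M.tp t (M.hd t)) := rfl

lemma hd_succ (t : ℕ) : M.hd (t + 1) = M.hd t + (M.move (M.st t) (M.tp t (M.hd t)) : ℤ) := rfl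

lemma tp_succ (t : ℕ) : M.tp (t + 1) =
    Function.update (M.tp t) (M.hd t) (M.write (M.st t) (M.tp t (M.hd t))) := rfl

lemma hd_succ_le (t : ℕ) : M.hd (t + 1) ≤ M.hd t + 1 := by
  rw [hd_succ]
  have : ((M.move (M.st t) (M.tp t (M.hd t)) : SignType) : ℤ) ≤ 1 := by
    cases M.move (M.st t) (M.tp t (M.hd t)) <;> simp
  linarith

lemma hd_succ_ge (t : ℕ) : M.hd t - 1 ≤ M.hd (t + 1) := by
  rw [hd_succ]
  have : -1 ≤ ((M.move (M.st t) (M.tp t (M.hd t)) : SignType) : ℤ) := by
    cases M.move (M.st t) (M.tp t (M.hd t)) <;> simp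
  linarith

/-- the configurations at `a` and `a'` agree to the right of the boundaries `i`, `i'` -/
structure Agree (i i' : ℤ) (a a' : ℕ) : Prop where
  st : M.st a = M.st a'
  hd : M.hd a - i = M.hd a' - i'
  tp : ∀ y : ℤ, 0 < y → M.tp a (i + y) = M.tp a' (i' + y)

variable {M}

lemma Agree.symm {i i' : ℤ} {a a' : ℕ} (h : M.Agree i i' a a') : M.Agree i' i a' a :=
  ⟨h.st.symm, h.hd.symm, fun y hy => (h.tp y hy).symm⟩

lemma Agree.sym {i i' : ℤ} {a a' : ℕ} (h : M.Agree i i' a a') (hi : i < M.hd a) :
    M.tp a (M.hd a) = M.tp a' (M.hd a') := by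
  have h1 := h.tp (M.hd a - i) (by linarith)
  have h2 := h.hd
  rw [show i + (M.hd a - i) = M.hd a by ring, show i' + (M.hd a - i) = M.hd a' by linarith] at h1
  exact h1

lemma Agree.w {i i' : ℤ} {a a' : ℕ} (h : M.Agree i i' a a') (hi : i < M.hd a) : M.w a = M.w a' := by
  unfold One.w
  rw [h.st, h.sym hi]

lemma Agree.step {i i' : ℤ} {a a' : ℕ} (h : M.Agree i i' a a') (hi : i < M.hd a) :
    M.Agree i i' (a + 1) (a' + 1) := by
  have hs := h.sym hi
  have hst := h.st
  have hhd := h.hd
  refine ⟨?_, ?_, ?_⟩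
  · rw [st_succ, st_succ, hst, hs]
  · rw [hd_succ, hd_succ, hst, hs]
    linarith
  · intro y hy
    rw [tp_succ, tp_succ, hst, hs]
    by_cases hc : i + y = M.hd a
    · have hc' : i' + y = M.hd a' := by linarith
      rw [hc, hc', Function.update_self, Function.update_self]
    · have hc' : i' + y ≠ M.hd a' := by
        intro h'
        apply hc
        linarith
      rw [Function.update_of_ne hc, Function.update_of_ne hc']
      exact h.tp y hy

/-- the runs agree as long as the head is to the right of the boundary -/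
lemma Agree.run {i i' : ℤ} {a a' : ℕ} (h : M.Agree i i' a a') (r : ℕ)
    (hr : ∀ s < r, i < M.hd (a + s)) : M.Agree i i' (a + r) (a' + r) := by
  induction r with
  | zero => simpa using h
  | succ r ih =>
    have h1 := ih fun s hs => hr s (by omega)
    exact h1.step (hr r (by omega))

lemma tp_left (i : ℤ) {a : ℕ} (hi : M.hd a ≤ i) (y : ℤ) (hy : 0 < y) :
    M.tp (a + 1) (i + y) = M.tp a (i + y) := by
  rw [tp_succ, Function.update_of_ne (by linarith)]

lemma tp_frozen (i : ℤ) {a e : ℕ} (hae : a ≤ e) (hi : ∀ t, a ≤ t → t < e → M.hd t ≤ i) (y : ℤ)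
    (hy : 0 < y) : M.tp e (i + y) = M.tp a (i + y) := by
  induction e, hae using Nat.le_induction with
  | base => rfl
  | succ e hae ih =>
    rw [tp_left i (hi e hae (by omega)) y hy]
    exact ih fun t h1 h2 => hi t h1 (by omega)

variable (M)

/-- the head crosses the boundary `i` to the right in step `t` -/
def Up (i : ℤ) (t : ℕ) : Prop := M.hd t ≤ i ∧ i < M.hd (t + 1)

open Classical in
/-- the number of the crossings before `t` -/
noncomputable def ups (i : ℤ) (t : ℕ) : ℕ := Nat.count (M.Up i) t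

/-- `t` is the crossing with the number `k` -/
def Kth (i : ℤ) (k t : ℕ) : Prop := M.Up i t ∧ M.ups i t = k

variable {M}

lemma ups_zero (i : ℤ) : M.ups i 0 = 0 := by
  classical
  unfold ups
  exact Nat.count_zero _

lemma ups_succ (i : ℤ) (t : ℕ) (h : M.Up i t) : M.ups i (t + 1) = M.ups i t + 1 := by
  classical
  unfold ups
  rw [Nat.count_succ, if_pos h]

lemma ups_succ' (i : ℤ) (t : ℕ) (h : ¬ M.Up i t) : M.ups i (t + 1) = M.ups i t := by
  classical
  unfold ups
  rw [Nat.count_succ, if_neg h, add_zero]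

lemma ups_mono (i : ℤ) : Monotone (M.ups i) := by
  classical
  intro a b h
  unfold ups
  exact Nat.count_monotone _ h

lemma hd_of_up (i : ℤ) (t : ℕ) (h : M.Up i t) : M.hd (t + 1) = i + 1 := by
  have h1 := M.hd_succ_le t
  obtain ⟨h2, h3⟩ := h
  omega

/-- no crossing between `a` and `e` -/
lemma stay_left (i : ℤ) {a e : ℕ} (_ : a ≤ e) (ha : M.hd a ≤ i) (hu : M.ups i e = M.ups i a) :
    ∀ t, a ≤ t → t ≤ e → M.hd t ≤ i := by
  intro t h1
  induction t, h1 using Nat.le_induction with
  | base => exact fun _ => ha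
  | succ t h1 ih =>
    intro h2
    have h3 := ih (by omega)
    by_contra hcon
    push Not at hcon
    have h4 := ups_succ i t ⟨h3, hcon⟩
    have h5 := ups_mono (M := M) i h1
    have h6 := ups_mono (M := M) i h2
    omega

lemma kth_exists (i : ℤ) {k T : ℕ} (h : k < M.ups i T) : ∃ t < T, M.Kth i k t := by
  induction T with
  | zero => rw [ups_zero] at h; omega
  | succ T ih =>
    by_cases hT : k < M.ups i T
    · obtain ⟨t, ht, h1⟩ := ih hT
      exact ⟨t, by omega, h1⟩
    · by_cases hU : M.Up i T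
      · rw [ups_succ i T hU] at h
        exact ⟨T, by omega, hU, by omega⟩
      · rw [ups_succ' i T hU] at h
        exact absurd h hT

lemma kth_unique (i : ℤ) {k t t' : ℕ} (h : M.Kth i k t) (h' : M.Kth i k t') : t = t' := by
  have key : ∀ {t t' : ℕ}, M.Kth i k t → M.Kth i k t' → ¬ t < t' := by
    intro t t' h h' hlt
    have h1 := ups_succ i t h.1
    have h2 := ups_mono (M := M) i (show t + 1 ≤ t' by omega)
    have h3 := h.2
    have h4 := h'.2
    omega
  rcases lt_trichotomy t t' with h1 | h1 | h1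
  · exact absurd h1 (key h h')
  · exact h1
  · exact absurd h1 (key h' h)

/-- the return to the left between two crossings -/
lemma ret (i : ℤ) {k a t : ℕ} (ha : M.Kth i k a) (ht : M.Kth i (k + 1) t) :
    ∃ r, a + 1 + r ≤ t ∧ M.hd (a + 1 + r) ≤ i ∧ (∀ s < r, i < M.hd (a + 1 + s)) ∧
      ∀ z, a + 1 + r ≤ z → z ≤ t → M.hd z ≤ i := by
  classical
  have hlt : a < t := by
    by_contra hcon
    have h1 := ups_mono (M := M) i (show t ≤ a by omega)
    have h2 := ha.2
    have h3 := ht.2
    omega
  have hex : ∃ r, M.hd (a + 1 + r) ≤ i := ⟨t - (a + 1), by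
    rw [show a + 1 + (t - (a + 1)) = t by omega]; exact ht.1.1⟩
  have h1 := Nat.find_spec hex
  have h2 : ∀ s < Nat.find hex, i < M.hd (a + 1 + s) := fun s hs => not_le.1 (Nat.find_min hex hs)
  have h3 : a + 1 + Nat.find hex ≤ t := by
    have : Nat.find hex ≤ t - (a + 1) := Nat.find_min' hex (by
      rw [show a + 1 + (t - (a + 1)) = t by omega]; exact ht.1.1)
    omega
  refine ⟨Nat.find hex, h3, h1, h2, ?_⟩
  apply stay_left i h3 h1
  have e1 := ups_mono (M := M) i h3
  have e2 := ups_succ i a ha.1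
  have e3 := ups_mono (M := M) i (show a + 1 ≤ a + 1 + Nat.find hex by omega)
  have e4 := ha.2
  have e5 := ht.2
  omega

/-- Same states at the first crossings: the runs after them agree. -/
lemma agree_kth {i i' : ℤ} (hi : 0 ≤ i) (hi' : 0 ≤ i') (k : ℕ) :
    ∀ t t' : ℕ, M.Kth i k t → M.Kth i' k t' →
    (∀ l ≤ k, ∀ a a', M.Kth i l a → M.Kth i' l a' → M.st (a + 1) = M.st (a' + 1)) →
    M.Agree i i' (t + 1) (t' + 1) := by
  induction k with
  | zero =>
    intro t t' ht ht' hs
    refine ⟨hs 0 le_rfl t t' ht ht', ?_, ?_⟩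
    · rw [hd_of_up i t ht.1, hd_of_up i' t' ht'.1]
      ring
    · intro y hy
      have key : ∀ (j : ℤ) (u : ℕ), 0 ≤ j → M.Kth j 0 u → M.tp (u + 1) (j + y) = M.blank := by
        intro j u hj hu
        have h1 : ∀ z, 0 ≤ z → z ≤ u → M.hd z ≤ j :=
          stay_left j (Nat.zero_le u) (by rw [hd_zero]; exact hj) (by rw [hu.2, ups_zero])
        rw [tp_frozen j (Nat.zero_le (u + 1)) (fun z h2 h3 => h1 z h2 (by omega)) y hy, tp_zero]
      rw [key i t hi ht, key i' t' hi' ht']
  | succ k ih =>
    intro t t' ht ht' hs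
    obtain ⟨a, -, ha⟩ := kth_exists (M := M) i (k := k) (T := t) (by rw [ht.2]; omega)
    obtain ⟨a', -, ha'⟩ := kth_exists (M := M) i' (k := k) (T := t') (by rw [ht'.2]; omega)
    have hag := ih a a' ha ha' fun l hl => hs l (by omega)
    obtain ⟨r, hr1, hr2, hr3, hr4⟩ := ret i ha ht
    obtain ⟨r', hr1', hr2', hr3', hr4'⟩ := ret i' ha' ht'
    have hrr : r = r' := by
      rcases lt_trichotomy r r' with h | h | h
      · exfalso
        have h1 := (hag.run r hr3).hd
        have h2 := hr3' r h
        omega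
      · exact h
      · exfalso
        have h1 := (hag.run r' fun s hs => hr3 s (by omega)).hd
        have h2 := hr3 r' h
        omega
    subst hrr
    have hag2 := hag.run r hr3
    refine ⟨hs (k + 1) le_rfl t t' ht ht', ?_, ?_⟩
    · rw [hd_of_up i t ht.1, hd_of_up i' t' ht'.1]
      ring
    · intro y hy
      rw [tp_frozen i (show a + 1 + r ≤ t + 1 by omega) (fun z h1 h2 => hr4 z h1 (by omega)) y hy,
        tp_frozen i' (show a' + 1 + r ≤ t' + 1 by omega) (fun z h1 h2 => hr4' z h1 (by omega)) y hy]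
      exact hag2.tp y hy

/-- the last crossing before `t`, if the head is to the right -/
lemma last_kth {i : ℤ} (hi : 0 ≤ i) {t : ℕ} (ht : i < M.hd t) :
    ∃ a < t, M.Kth i (M.ups i t - 1) a ∧ 0 < M.ups i t ∧ ∀ z, a < z → z ≤ t → i < M.hd z := by
  induction t with
  | zero => rw [hd_zero] at ht; omega
  | succ t ih =>
    by_cases h1 : i < M.hd t
    · obtain ⟨a, ha, h2, h3, h4⟩ := ih h1
      have hU : ¬ M.Up i t := fun h => absurd h.1 (not_le.2 h1)
      rw [ups_succ' i t hU]
      refine ⟨a, by omega, h2, h3, fun z h5 h6 => ?_⟩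
      rcases Nat.lt_or_ge z (t + 1) with h7 | h7
      · exact h4 z h5 (by omega)
      · rw [show z = t + 1 by omega]; exact ht
    · push Not at h1
      have hU : M.Up i t := ⟨h1, ht⟩
      rw [ups_succ i t hU]
      refine ⟨t, by omega, ⟨hU, by omega⟩, by omega, fun z h5 h6 => ?_⟩
      rw [show z = t + 1 by omega]; exact ht

end One

end Pool.Agent.HS38.HS
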