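import Pool.Agent.HS38.HS.One

/-!
# Repetitions in the output of a machine with one tape which writes far away from its starting point
-/

set_option autoImplicit false

open Finset Filter Topology

namespace Pool.Agent.HS38.HS

namespace One

variable {S Γ : Type} (M : One S Γ)

/-- the number of the digits written before time `t` -/
noncomputable def len (t : ℕ) : ℕ := Nat.count (fun s => (M.w s).isSome = true) t

variable {M}

lemma len_zero : M.len 0 = 0 := Nat.count_zero _

lemma len_some {t : ℕ} {c : ℕ} (h : M.w t = some c) : M.len (t + 1) = M.len t + 1 := by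
  unfold len
  rw [Nat.count_succ, if_pos (by rw [h]; rfl)]

lemma len_none {t : ℕ} (h : M.w t = none) : M.len (t + 1) = M.len t := by
  unfold len
  rw [Nat.count_succ, if_neg (by rw [h]; simp), add_zero]

lemma len_mono : Monotone M.len := Nat.count_monotone _

lemma len_le (t : ℕ) : M.len t ≤ t := Nat.count_le _

lemma len_add (a r : ℕ) : M.len (a + r) =
    M.len a + Nat.count (fun s => (M.w (a + s)).isSome = true) r := by
  unfold len
  rw [Nat.count_add]

/-- the same digits are written in agreeing parts of the run -/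
lemma rep_len {a a' r : ℕ} (h : ∀ s < r, M.w (a + s) = M.w (a' + s)) (s : ℕ) (hs : s ≤ r) :
    M.len (a + s) + M.len a' = M.len (a' + s) + M.len a := by
  induction s with
  | zero => simp [add_comm]
  | succ s ih =>
    have h1 := ih (by omega)
    have h2 := h s (by omega)
    cases h3 : M.w (a + s) with
    | none =>
      rw [h3] at h2
      rw [← add_assoc, ← add_assoc, len_none h3, len_none h2.symm]
      exact h1
    | some c =>
      rw [h3] at h2
      rw [← add_assoc, ← add_assoc, len_some h3, len_some h2.symm]
      omega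

lemma exists_write {a r y : ℕ} (h : y < M.len (a + r) - M.len a) :
    ∃ s < r, ∃ c, M.w (a + s) = some c ∧ M.len (a + s) = M.len a + y := by
  induction r with
  | zero => simp at h
  | succ r ih =>
    by_cases h1 : y < M.len (a + r) - M.len a
    · obtain ⟨s, hs, c, h2, h3⟩ := ih h1
      exact ⟨s, by omega, c, h2, h3⟩
    · have h0 := len_mono (M := M) (show a ≤ a + r by omega)
      cases h3 : M.w (a + r) with
      | none =>
        rw [← add_assoc, len_none h3] at h
        exact absurd h h1
      | some c =>
        rw [← add_assoc, len_some h3] at h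
        exact ⟨r, by omega, c, h3, by omega⟩

/-- equal words at two places -/
lemma rep_eq {d : ℕ → ℕ} (hd : ∀ t c, M.w t = some c → c = d (M.len t)) {a a' r : ℕ}
    (h : ∀ s < r, M.w (a + s) = M.w (a' + s)) (y : ℕ) (hy : y < M.len (a' + r) - M.len a') :
    d (M.len a + y) = d (M.len a' + y) := by
  obtain ⟨s, hs, c, h1, h2⟩ := exists_write hy
  have h3 := hd _ _ h1
  have h4 := h s hs
  rw [h1] at h4
  have h5 := hd _ _ h4
  have h6 := rep_len h s hs.le
  rw [h2] at h3 h6
  rw [show M.len (a + s) = M.len a + y by omega] at h5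
  rw [← h5, ← h3]

/-- the places are different -/
lemma rep_ne_aux {a a' r : ℕ} (h : ∀ s < r, M.w (a + s) = M.w (a' + s)) (haa : a < a')
    (hD : 0 < M.len (a' + r) - M.len a') : M.len a ≠ M.len a' := by
  intro heq
  have key : ∀ z, a ≤ z → z < a' + r → M.w z = none := by
    intro z
    induction z using Nat.strong_induction_on with
    | _ z ih =>
      intro h1 h2
      by_cases h3 : z < a'
      · cases h4 : M.w z with
        | none => rfl
        | some c =>
          exfalso
          have h5 := len_some h4
          have h6 := len_mono (M := M) h1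
          have h7 := len_mono (M := M) (show z + 1 ≤ a' by omega)
          omega
      · have h4 := h (z - a') (by omega)
        rw [show a' + (z - a') = z by omega] at h4
        rw [← h4]
        exact ih _ (by omega) (by omega) (by omega)
  obtain ⟨s, hs, c, h1, -⟩ := exists_write hD
  rw [key (a' + s) (by omega) (by omega)] at h1
  exact absurd h1 (by simp)

lemma rep_ne {a a' r : ℕ} (h : ∀ s < r, M.w (a + s) = M.w (a' + s)) (haa : a ≠ a')
    (hD : 0 < M.len (a' + r) - M.len a') : M.len a ≠ M.len a' := by
  rcases lt_or_gt_of_ne haa with h1 | h1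
  · exact rep_ne_aux h h1 hD
  · have h2 := rep_len h r le_rfl
    exact (rep_ne_aux (fun s hs => (h s hs).symm) h1 (by omega)).symm

lemma up_eq {i : ℤ} {t : ℕ} (h : M.Up i t) : M.hd t = i := by
  have h1 := M.hd_succ_le t
  obtain ⟨h2, h3⟩ := h
  omega

/-- the total number of the crossings -/
lemma sum_ups (L T : ℕ) : ∑ i ∈ range L, M.ups (i : ℤ) T ≤ T := by
  classical
  induction T with
  | zero => simp [ups_zero]
  | succ T ih =>
    have h1 : ∀ i ∈ range L, M.ups (i : ℤ) (T + 1) =
        M.ups (i : ℤ) T + (if M.Up (i : ℤ) T then 1 else 0) := by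
      intro i _
      split_ifs with h
      · exact ups_succ _ _ h
      · rw [ups_succ' _ _ h, add_zero]
    rw [sum_congr rfl h1, sum_add_distrib]
    refine Nat.add_le_add ih ?_
    rw [← card_filter, card_le_one]
    intro i hi j hj
    rw [mem_filter] at hi hj
    have h2 := up_eq hi.2
    have h3 := up_eq hj.2
    have : (i : ℤ) = j := by rw [← h2, ← h3]
    exact_mod_cast this

lemma kth_le {i : ℤ} {l k a b : ℕ} (hlk : l ≤ k) (ha : M.Kth i l a) (hb : M.Kth i k b) : a ≤ b := by
  by_contra hcon
  have h1 := ups_succ i b hb.1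
  have h2 := ups_mono (M := M) i (show b + 1 ≤ a by omega)
  have h3 := ha.2
  have h4 := hb.2
  omega

open Classical in
/-- the state after the crossing with the number `l`, if it takes place before `T` -/
noncomputable def sg (M : One S Γ) (T : ℕ) (i : ℤ) (l : ℕ) : S :=
  if h : ∃ a < T, M.Kth i l a then M.st (h.choose + 1) else M.st 0

lemma sg_eq {T : ℕ} {i : ℤ} {l a : ℕ} (ha : a < T) (h : M.Kth i l a) :
    M.sg T i l = M.st (a + 1) := by
  unfold sg
  have hex : ∃ a < T, M.Kth i l a := ⟨a, ha, h⟩
  rw [dif_pos hex]
  rw [kth_unique i hex.choose_spec.2 h]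

open Classical in
/-- the states which occur up to the time `T` -/
noncomputable def vis (M : One S Γ) (T : ℕ) : Finset S := (range (T + 1)).image M.st

lemma mem_vis {T : ℕ} {s : S} : s ∈ M.vis T ↔ ∃ t < T + 1, M.st t = s := by
  classical
  unfold vis
  rw [Finset.mem_image]
  simp only [mem_range]

lemma sg_mem (T : ℕ) (i : ℤ) (l : ℕ) : M.sg T i l ∈ M.vis T := by
  classical
  unfold sg vis
  split_ifs with h
  · exact mem_image_of_mem _ (mem_range.2 (by have := h.choose_spec.1; omega))
  · exact mem_image_of_mem _ (mem_range.2 (by omega))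

/-- an excursion with many digits -/
lemma heavy {T m : ℕ} {i : ℤ} (hi : 0 ≤ i) (hm : M.ups i T ≤ m) (F : Finset ℕ)
    (hF : ∀ t ∈ F, t < T ∧ (M.w t).isSome = true ∧ i < M.hd t) (c : ℝ) (hc0 : 0 ≤ c)
    (hc : m * c < F.card) :
    ∃ k < m, ∃ a < T, M.Kth i k a ∧ ∃ r, (∀ s < r, i < M.hd (a + 1 + s)) ∧ a + 1 + r ≤ T ∧
      c < ((M.len (a + 1 + r) - M.len (a + 1) : ℕ) : ℝ) := by
  classical
  -- the fibres
  have h1 : ∃ k ∈ range m, c < ((F.filter (fun t => M.ups i t - 1 = k)).card : ℝ) := by
    by_contra hcon
    push Not at hcon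
    have h2 : F.card = ∑ k ∈ range m, (F.filter (fun t => M.ups i t - 1 = k)).card := by
      apply card_eq_sum_card_fiberwise
      intro t ht
      rw [Finset.mem_coe] at ht
      obtain ⟨h3, -, h5⟩ := hF t ht
      obtain ⟨a, -, -, h6, -⟩ := last_kth hi h5
      have h7 := ups_mono (M := M) i h3.le
      rw [Finset.mem_coe, mem_range]
      show M.ups i t - 1 < m
      omega
    have h3 : (F.card : ℝ) ≤ m * c := by
      rw [h2]
      push_cast
      calc ∑ k ∈ range m, ((F.filter (fun t => M.ups i t - 1 = k)).card : ℝ)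
          ≤ ∑ k ∈ range m, c := sum_le_sum hcon
        _ = m * c := by rw [sum_const, card_range, nsmul_eq_mul]
    linarith
  obtain ⟨k, hk, h2⟩ := h1
  set G := F.filter (fun t => M.ups i t - 1 = k) with hG
  have hGn : G.Nonempty := by
    rw [← card_pos]
    have : (0 : ℝ) < (G.card : ℝ) := lt_of_le_of_lt hc0 h2
    exact_mod_cast this
  obtain ⟨t, htG, htmax⟩ := G.exists_max_image id hGn
  have ht := mem_filter.1 (hG ▸ htG)
  obtain ⟨h3, -, h5⟩ := hF t ht.1
  obtain ⟨a, ha, h6, h7, h8⟩ := last_kth hi h5
  rw [ht.2] at h6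
  refine ⟨k, mem_range.1 hk, a, by omega, h6, t - a, ?_, by omega, lt_of_lt_of_le h2 ?_⟩
  · intro s hs
    exact h8 _ (by omega) (by omega)
  · -- all the members of `G` are in `(a, t]`
    rw [show a + 1 + (t - a) = t + 1 by omega]
    have h9 : G ⊆ (Finset.Ico (a + 1) (t + 1)).filter (fun s => (M.w s).isSome = true) := by
      intro z hz
      have hz2 := mem_filter.1 (hG ▸ hz)
      obtain ⟨h10, h11, h12⟩ := hF z hz2.1
      obtain ⟨b, hb, h13, -, -⟩ := last_kth hi h12
      rw [hz2.2] at h13
      have hab := kth_unique i h6 h13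
      have := htmax z hz
      simp only [id] at this
      rw [mem_filter, Finset.mem_Ico]
      exact ⟨⟨by omega, by omega⟩, h11⟩
    have h10 : ((Finset.Ico (a + 1) (t + 1)).filter (fun s => (M.w s).isSome = true)).card =
        M.len (t + 1) - M.len (a + 1) := by
      unfold len
      rw [Nat.count_eq_card_filter_range, Nat.count_eq_card_filter_range]
      rw [← card_sdiff_of_subset]
      · congr 1
        ext z
        simp only [mem_filter, Finset.mem_Ico, Finset.mem_sdiff, mem_range]
        constructor
        · rintro ⟨⟨h1, h2⟩, h3⟩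
          exact ⟨⟨h2, h3⟩, fun h => by omega⟩
        · rintro ⟨⟨h1, h2⟩, h3⟩
          refine ⟨⟨?_, h1⟩, h2⟩
          by_contra hcon
          exact h3 ⟨by omega, h2⟩
      · intro z hz
        rw [mem_filter, mem_range] at hz ⊢
        exact ⟨by omega, hz.2⟩
    have h11 := card_le_card h9
    rw [h10] at h11
    exact_mod_cast h11

end One

end Pool.Agent.HS38.HS
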